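import Mathlib

/-!
Smoothing of convex functions on an open interval by symmetric averages.
-/

set_option autoImplicit false

open Set Filter Topology MeasureTheory intervalIntegral

namespace Pool.Agent.X27.Cor

/-- symmetric averages -/
noncomputable def sm (w : ℝ → ℝ) (h t : ℝ) : ℝ := ∫ s in (0 : ℝ)..1, (w (t + h * s) + w (t - h * s)) / 2

/-- the smaller interval -/
def Ih (I : Set ℝ) (h : ℝ) : Set ℝ := {t | t - h ∈ I ∧ t + h ∈ I}

variable {I : Set ℝ} {w : ℝ → ℝ}

theorem Ih_open (hI : IsOpen I) (h : ℝ) : IsOpen (Ih I h) :=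
  (hI.preimage (continuous_id.sub continuous_const)).inter
    (hI.preimage (continuous_id.add continuous_const))

theorem Ih_convex (hI : Convex ℝ I) (h : ℝ) : Convex ℝ (Ih I h) := by
  intro x hx y hy a b ha hb hab
  constructor
  · have h1 := hI hx.1 hy.1 ha hb hab
    have h2 : a • (x - h) + b • (y - h) = a • x + b • y - h := by
      simp only [smul_eq_mul]
      have : h = (a + b) * h := by rw [hab, one_mul]
      nlinarith
    rwa [h2] at h1
  · have h1 := hI hx.2 hy.2 ha hb hab
    have h2 : a • (x + h) + b • (y + h) = a • x + b • y + h := by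
      simp only [smul_eq_mul]
      have : h = (a + b) * h := by rw [hab, one_mul]
      nlinarith
    rwa [h2] at h1

theorem Icc_sub (hI : Convex ℝ I) {h t : ℝ} (ht : t ∈ Ih I h) : Icc (t - h) (t + h) ⊆ I :=
  hI.ordConnected.out ht.1 ht.2

theorem Ih_mono (hI : Convex ℝ I) {h h' : ℝ} (h0 : 0 ≤ h) (hh : h ≤ h') : Ih I h' ⊆ Ih I h := by
  intro t ht
  exact ⟨Icc_sub hI ht ⟨by linarith, by linarith⟩, Icc_sub hI ht ⟨by linarith, by linarith⟩⟩

theorem mem_pm (hI : Convex ℝ I) {h t s : ℝ} (h0 : 0 ≤ h) (ht : t ∈ Ih I h) (hs : s ∈ Icc (0 : ℝ) 1) :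
    t + h * s ∈ I ∧ t - h * s ∈ I := by
  have h1 : 0 ≤ h * s := mul_nonneg h0 hs.1
  have h2 : h * s ≤ h := by nlinarith [hs.2]
  exact ⟨Icc_sub hI ht ⟨by linarith, by linarith⟩, Icc_sub hI ht ⟨by linarith, by linarith⟩⟩

theorem integrable_sm (hI : IsOpen I) (hw : ConvexOn ℝ I w) {h t : ℝ} (h0 : 0 ≤ h)
    (ht : t ∈ Ih I h) :
    IntervalIntegrable (fun s => (w (t + h * s) + w (t - h * s)) / 2) volume 0 1 := by
  have hc : ContinuousOn w I := hw.continuousOn hI
  refine ContinuousOn.intervalIntegrable ?_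
  rw [uIcc_of_le zero_le_one]
  refine ContinuousOn.div_const (ContinuousOn.add ?_ ?_) 2
  · exact hc.comp (by fun_prop) (fun s hs => (mem_pm hw.1 h0 ht hs).1)
  · exact hc.comp (by fun_prop) (fun s hs => (mem_pm hw.1 h0 ht hs).2)

/-- pointwise monotonicity of the symmetric sums -/
theorem sym_mono (hw : ConvexOn ℝ I w) {t a b : ℝ} (ha : 0 ≤ a) (hab : a ≤ b)
    (h1 : t - b ∈ I) (h2 : t + b ∈ I) : w (t + a) + w (t - a) ≤ w (t + b) + w (t - b) := by
  rcases eq_or_lt_of_le (ha.trans hab) with hb | hb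
  · have : a = 0 := by linarith
    rw [this, ← hb]
  · have hp : (0 : ℝ) ≤ (b + a) / (2 * b) := by positivity
    have hq : (0 : ℝ) ≤ (b - a) / (2 * b) := div_nonneg (by linarith) (by positivity)
    have hpq : (b + a) / (2 * b) + (b - a) / (2 * b) = 1 := by
      field_simp; ring
    have e1 := hw.2 h2 h1 hp hq hpq
    have e2 := hw.2 h1 h2 hp hq hpq
    have f1 : ((b + a) / (2 * b)) • (t + b) + ((b - a) / (2 * b)) • (t - b) = t + a := by
      simp only [smul_eq_mul]
      field_simp
      ring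
    have f2 : ((b + a) / (2 * b)) • (t - b) + ((b - a) / (2 * b)) • (t + b) = t - a := by
      simp only [smul_eq_mul]
      field_simp
      ring
    rw [f1] at e1
    rw [f2] at e2
    simp only [smul_eq_mul] at e1 e2
    have : (b + a) / (2 * b) * w (t + b) + (b - a) / (2 * b) * w (t - b) +
        ((b + a) / (2 * b) * w (t - b) + (b - a) / (2 * b) * w (t + b)) =
        ((b + a) / (2 * b) + (b - a) / (2 * b)) * (w (t + b) + w (t - b)) := by ring
    rw [hpq, one_mul] at this
    linarith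

theorem le_sm (hI : IsOpen I) (hw : ConvexOn ℝ I w) {h t : ℝ} (h0 : 0 ≤ h) (ht : t ∈ Ih I h) :
    w t ≤ sm w h t := by
  have h1 : w t = ∫ _ in (0 : ℝ)..1, w t := by simp
  rw [h1]
  refine integral_mono_on zero_le_one (by simp) (integrable_sm hI hw h0 ht) ?_
  intro s hs
  have h2 := mem_pm hw.1 h0 ht hs
  have h3 := sym_mono hw (t := t) (a := 0) (b := h * s) le_rfl (mul_nonneg h0 hs.1) h2.2 h2.1
  rw [add_zero, sub_zero] at h3
  linarith

theorem sm_mono (hI : IsOpen I) (hw : ConvexOn ℝ I w) {h h' t : ℝ} (h0 : 0 ≤ h) (hh : h ≤ h')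
    (ht : t ∈ Ih I h') : sm w h t ≤ sm w h' t := by
  refine integral_mono_on zero_le_one (integrable_sm hI hw h0 (Ih_mono hw.1 h0 hh ht))
    (integrable_sm hI hw (h0.trans hh) ht) ?_
  intro s hs
  have h2 := mem_pm hw.1 (h0.trans hh) ht hs
  have h3 := sym_mono hw (t := t) (a := h * s) (b := h' * s) (mul_nonneg h0 hs.1)
    (mul_le_mul_of_nonneg_right hh hs.1) h2.2 h2.1
  linarith

theorem sm_le (hI : IsOpen I) (hw : ConvexOn ℝ I w) {h t : ℝ} (h0 : 0 ≤ h) (ht : t ∈ Ih I h) :
    sm w h t ≤ (w (t + h) + w (t - h)) / 2 := by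
  have h1 : (w (t + h) + w (t - h)) / 2 = ∫ _ in (0 : ℝ)..1, (w (t + h) + w (t - h)) / 2 := by simp
  rw [h1]
  refine integral_mono_on zero_le_one (integrable_sm hI hw h0 ht) (by simp) ?_
  intro s hs
  have h3 := sym_mono hw (t := t) (a := h * s) (b := h) (mul_nonneg h0 hs.1)
    (by nlinarith [hs.2]) ht.1 ht.2
  linarith

theorem sm_convex (hI : IsOpen I) (hw : ConvexOn ℝ I w) {h : ℝ} (h0 : 0 ≤ h) :
    ConvexOn ℝ (Ih I h) (sm w h) := by
  refine ⟨Ih_convex hw.1 h, ?_⟩
  intro x hx y hy a b ha hb hab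
  have hxy := Ih_convex hw.1 h hx hy ha hb hab
  have h1 : a • sm w h x + b • sm w h y = ∫ s in (0 : ℝ)..1,
      (a * ((w (x + h * s) + w (x - h * s)) / 2) + b * ((w (y + h * s) + w (y - h * s)) / 2)) := by
    rw [intervalIntegral.integral_add ((integrable_sm hI hw h0 hx).const_mul a)
      ((integrable_sm hI hw h0 hy).const_mul b), intervalIntegral.integral_const_mul,
      intervalIntegral.integral_const_mul]
    rfl
  rw [h1]
  refine integral_mono_on zero_le_one (integrable_sm hI hw h0 hxy)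
    (((integrable_sm hI hw h0 hx).const_mul a).add ((integrable_sm hI hw h0 hy).const_mul b)) ?_
  intro s hs
  have h2 := mem_pm hw.1 h0 hx hs
  have h3 := mem_pm hw.1 h0 hy hs
  have e1 := hw.2 h2.1 h3.1 ha hb hab
  have e2 := hw.2 h2.2 h3.2 ha hb hab
  simp only [smul_eq_mul] at e1 e2 ⊢
  have f1 : a * (x + h * s) + b * (y + h * s) = a * x + b * y + h * s := by
    have : h * s = (a + b) * (h * s) := by rw [hab, one_mul]
    linarith
  have f2 : a * (x - h * s) + b * (y - h * s) = a * x + b * y - h * s := by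
    have : h * s = (a + b) * (h * s) := by rw [hab, one_mul]
    linarith
  rw [f1] at e1
  rw [f2] at e2
  linarith

theorem int_of_mem (hI : IsOpen I) (hw : ConvexOn ℝ I w) {a b : ℝ} (ha : a ∈ I) (hb : b ∈ I) :
    IntervalIntegrable w volume a b := by
  refine ContinuousOn.intervalIntegrable ((hw.continuousOn hI).mono ?_)
  rcases le_total a b with h | h
  · rw [uIcc_of_le h]; exact hw.1.ordConnected.out ha hb
  · rw [uIcc_of_ge h]; exact hw.1.ordConnected.out hb ha

theorem sm_eq (hI : IsOpen I) (hw : ConvexOn ℝ I w) {h : ℝ} (h0 : 0 < h) {t c : ℝ}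
    (ht : t ∈ Ih I h) (hc : c ∈ I) :
    sm w h t = (1 / (2 * h)) * ((∫ x in c..(t + h), w x) - ∫ x in c..(t - h), w x) := by
  have htI : t ∈ I := Icc_sub hw.1 ht ⟨by linarith, by linarith⟩
  have hcw : ContinuousOn w I := hw.continuousOn hI
  have i1 : IntervalIntegrable (fun s => w (t + h * s)) volume 0 1 := by
    refine ContinuousOn.intervalIntegrable ?_
    rw [uIcc_of_le zero_le_one]
    exact hcw.comp (by fun_prop) (fun s hs => (mem_pm hw.1 h0.le ht hs).1)
  have i2 : IntervalIntegrable (fun s => w (t - h * s)) volume 0 1 := by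
    refine ContinuousOn.intervalIntegrable ?_
    rw [uIcc_of_le zero_le_one]
    exact hcw.comp (by fun_prop) (fun s hs => (mem_pm hw.1 h0.le ht hs).2)
  have h1 : sm w h t = ((∫ s in (0 : ℝ)..1, w (t + h * s)) + ∫ s in (0 : ℝ)..1, w (t - h * s)) / 2 := by
    unfold sm
    rw [intervalIntegral.integral_div, intervalIntegral.integral_add i1 i2]
  have h2 := smul_integral_comp_add_mul (a := 0) (b := 1) w h t
  have h3 := smul_integral_comp_sub_mul (a := 0) (b := 1) w h t
  simp only [smul_eq_mul, mul_zero, mul_one, add_zero, sub_zero] at h2 h3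
  have h4 := integral_interval_sub_left (μ := volume) (int_of_mem hI hw hc ht.2)
    (int_of_mem hI hw hc htI)
  have h5 := integral_interval_sub_left (μ := volume) (int_of_mem hI hw hc htI)
    (int_of_mem hI hw hc ht.1)
  rw [h1]
  have h6 : (∫ s in (0 : ℝ)..1, w (t + h * s)) = (1 / h) * ∫ x in t..(t + h), w x := by
    rw [← h2]; field_simp
  have h7 : (∫ s in (0 : ℝ)..1, w (t - h * s)) = (1 / h) * ∫ x in (t - h)..t, w x := by
    rw [← h3]; field_simp
  rw [h6, h7]
  have h8 : (∫ x in c..(t + h), w x) - ∫ x in c..(t - h), w x =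
      (∫ x in t..(t + h), w x) + ∫ x in (t - h)..t, w x := by
    linarith
  rw [h8]
  field_simp

theorem sm_diff (hI : IsOpen I) (hw : ConvexOn ℝ I w) {h : ℝ} (h0 : 0 < h) :
    ContDiffOn ℝ 1 (sm w h) (Ih I h) := by
  rcases (Ih I h).eq_empty_or_nonempty with he | ⟨c, hc⟩
  · rw [he]; exact contDiffOn_empty
  have hcI : c ∈ I := Icc_sub hw.1 hc ⟨by linarith, by linarith⟩
  have hcw : ContinuousOn w I := hw.continuousOn hI
  have hW : ∀ x ∈ I, HasDerivAt (fun u => ∫ y in c..u, w y) (w x) x := by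
    intro x hx
    refine integral_hasDerivAt_right (int_of_mem hI hw hcI hx) ?_
      (hcw.continuousAt (hI.mem_nhds hx))
    exact hcw.stronglyMeasurableAtFilter hI x hx
  have hd : ∀ t ∈ Ih I h, HasDerivAt (sm w h) ((1 / (2 * h)) * (w (t + h) - w (t - h))) t := by
    intro t ht
    have h1 : HasDerivAt (fun t => ∫ y in c..(t + h), w y) (w (t + h)) t := by
      have := (hW _ ht.2).comp_add_const t h
      exact this
    have h2 : HasDerivAt (fun t => ∫ y in c..(t - h), w y) (w (t - h)) t := by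
      have := (hW _ ht.1).comp_sub_const t h
      exact this
    have h3 := (h1.sub h2).const_mul (1 / (2 * h))
    refine h3.congr_of_eventuallyEq ?_
    filter_upwards [(Ih_open hI h).mem_nhds ht] with s hs
    exact sm_eq hI hw h0 hs hcI
  have h1 : ContDiffOn ℝ (0 + 1) (sm w h) (Ih I h) := by
    rw [contDiffOn_succ_iff_deriv_of_isOpen (Ih_open hI h)]
    refine ⟨fun t ht => (hd t ht).differentiableAt.differentiableWithinAt, by simp, ?_⟩
    rw [contDiffOn_zero]
    have h2 : ContinuousOn (fun t => (1 / (2 * h)) * (w (t + h) - w (t - h))) (Ih I h) := by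
      refine ContinuousOn.mul continuousOn_const (ContinuousOn.sub ?_ ?_)
      · exact hcw.comp (by fun_prop) (fun t ht => ht.2)
      · exact hcw.comp (by fun_prop) (fun t ht => ht.1)
    exact h2.congr fun t ht => (hd t ht).deriv
  simpa using h1

/-- the averages converge -/
theorem sm_tendsto (hI : IsOpen I) (hw : ConvexOn ℝ I w) {t : ℝ} (ht : t ∈ I) :
    Tendsto (fun h => sm w h t) (𝓝[>] 0) (𝓝 (w t)) := by
  have hcw : ContinuousAt w t := (hw.continuousOn hI).continuousAt (hI.mem_nhds ht)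
  have hev : ∀ᶠ h in 𝓝[>] (0 : ℝ), t ∈ Ih I h ∧ 0 < h := by
    have h1 : ∀ᶠ h in 𝓝 (0 : ℝ), t ∈ Ih I h := by
      have c1 : Tendsto (fun h : ℝ => t - h) (𝓝 0) (𝓝 t) := by
        have : Continuous (fun h : ℝ => t - h) := by fun_prop
        simpa using this.tendsto 0
      have c2 : Tendsto (fun h : ℝ => t + h) (𝓝 0) (𝓝 t) := by
        have : Continuous (fun h : ℝ => t + h) := by fun_prop
        simpa using this.tendsto 0
      exact (c1.eventually (hI.mem_nhds ht)).and (c2.eventually (hI.mem_nhds ht))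
    filter_upwards [h1.filter_mono nhdsWithin_le_nhds, self_mem_nhdsWithin] with h h2 h3
    exact ⟨h2, h3⟩
  have hup : Tendsto (fun h => (w (t + h) + w (t - h)) / 2) (𝓝[>] 0) (𝓝 (w t)) := by
    have c1 : Tendsto (fun h : ℝ => t - h) (𝓝 0) (𝓝 t) := by
      have : Continuous (fun h : ℝ => t - h) := by fun_prop
      simpa using this.tendsto 0
    have c2 : Tendsto (fun h : ℝ => t + h) (𝓝 0) (𝓝 t) := by
      have : Continuous (fun h : ℝ => t + h) := by fun_prop
      simpa using this.tendsto 0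
    have h1 := ((hcw.tendsto.comp c2).add (hcw.tendsto.comp c1)).div_const 2
    have h2 : (w t + w t) / 2 = w t := by ring
    rw [h2] at h1
    exact h1.mono_left nhdsWithin_le_nhds
  refine tendsto_of_tendsto_of_tendsto_of_le_of_le' tendsto_const_nhds hup ?_ ?_
  · filter_upwards [hev] with h hh
    exact le_sm hI hw hh.2.le hh.1
  · filter_upwards [hev] with h hh
    exact sm_le hI hw hh.2.le hh.1

end Pool.Agent.X27.Cor
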