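import Mathlib
import Pool.Agent.X27.Cor.Smooth
import Pool.Agent.H788R3.Cor2.Conc

/-!
Corona theorem over strips, with arbitrary convex functions of the real part.
-/

set_option autoImplicit false

open Set Filter Topology Metric

namespace Pool.Agent.X27.Cor

open Pool.Agent.H788R3.Cor2 (Dom main1 exhaust dom_open conv_supp conv_sc)

/-- the strip over `I` -/
def St (I : Set ℝ) : Set ℂ := {ζ | ζ.re ∈ I}

theorem St_open {I : Set ℝ} (hI : IsOpen I) : IsOpen (St I) := hI.preimage Complex.continuous_re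

theorem St_convex {I : Set ℝ} (hI : Convex ℝ I) : Convex ℝ (St I) :=
  hI.linear_preimage Complex.reLm

theorem re_convex {I : Set ℝ} {w : ℝ → ℝ} (hw : ConvexOn ℝ I w) :
    ConvexOn ℝ (St I) (fun ζ => w ζ.re) := hw.comp_linearMap Complex.reLm

theorem re_diff {I : Set ℝ} {w : ℝ → ℝ} (hw : ContDiffOn ℝ 1 w I) :
    ContDiffOn ℝ 1 (fun ζ : ℂ => w ζ.re) (St I) :=
  hw.comp Complex.reCLM.contDiff.contDiffOn (fun _ h => h)

/-- conclusion of the corona theorem -/
def Sol {N n : ℕ} (C : ℝ) (D : Set (ℂ × (Fin n → ℂ))) (f : Fin N → ℂ × (Fin n → ℂ) → ℂ)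
    (G : ℂ × (Fin n → ℂ) → ℂ) : Prop :=
  ∃ (g : Fin N → ℂ × (Fin n → ℂ) → ℂ) (g₀ : ℂ × (Fin n → ℂ) → ℂ),
    (∀ i, DifferentiableOn ℂ (g i) D) ∧ DifferentiableOn ℂ g₀ D ∧
    (∀ i, ∀ p ∈ D, ‖g i p‖ ≤ C) ∧ (∀ p ∈ D, ‖g₀ p‖ ≤ C) ∧
    ∀ p ∈ D, ∑ i, f i p * g i p + G p * g₀ p = 1

theorem strip (N : ℕ) (δ : ℝ) (hδ : 0 < δ) : ∃ C : ℝ,
    ∀ (n : ℕ) (I : Set ℝ) (w : Fin n → ℝ → ℝ) (R : Set (Fin n → ℝ)),
      IsOpen I → Convex ℝ I → I ≠ univ → (∀ j, ConvexOn ℝ I (w j)) →
      IsOpen R → (∀ x ∈ R, ∀ y : Fin n → ℝ, (∀ j, 0 ≤ y j ∧ y j ≤ x j) → y ∈ R) →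
      ∀ f : Fin N → ℂ → ℂ, (∀ i, DifferentiableOn ℂ (f i) (St I)) →
        (∀ i, ∀ z ∈ St I, ‖f i z‖ ≤ 1) →
      ∀ G : ℂ × (Fin n → ℂ) → ℂ, DifferentiableOn ℂ G (Dom (St I) (fun j ζ => w j ζ.re) R) →
        (∀ p ∈ Dom (St I) (fun j ζ => w j ζ.re) R, ‖G p‖ ≤ 1) →
        (∀ p ∈ Dom (St I) (fun j ζ => w j ζ.re) R, δ ≤ ∑ i, ‖f i p.1‖ ^ 2 + ‖G p‖ ^ 2) →
      Sol C (Dom (St I) (fun j ζ => w j ζ.re) R) (fun i p => f i p.1) G := by
  obtain ⟨C, hC⟩ := main1 N δ hδ
  refine ⟨C, ?_⟩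
  intro n I w R hI hIc hIu hw hR hRc f hf hfb G hG hGb hlow
  set D := Dom (St I) (fun j ζ => w j ζ.re) R with hD
  set h : ℕ → ℝ := fun m => 1 / ((m : ℝ) + 1) with hh
  have h0 : ∀ m, 0 < h m := fun m => by rw [hh]; positivity
  have hanti : ∀ m m', m ≤ m' → h m' ≤ h m := by
    intro m m' hm
    rw [hh]
    have : (m : ℝ) ≤ m' := by exact_mod_cast hm
    simp only
    gcongr
  set B : ℕ → Set (ℂ × (Fin n → ℂ)) := fun m =>
    Dom (St (Ih I (h m))) (fun j ζ => sm (w j) (h m) ζ.re) R with hB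
  have hBo : ∀ m, IsOpen (B m) := by
    intro m
    refine dom_open (St_open (Ih_open hI _)) (fun j => ?_) hR
    exact ((re_diff (sm_diff hI (hw j) (h0 m))).continuousOn)
  have hsub1 : ∀ m m', m ≤ m' → B m ⊆ B m' := by
    rintro m m' hm p ⟨h1, h2⟩
    refine ⟨Ih_mono hIc (h0 m').le (hanti m m' hm) h1, hRc _ h2 _ (fun j => ⟨by positivity, ?_⟩)⟩
    have h3 := sm_mono hI (hw j) (h0 m').le (hanti m m' hm) h1
    exact mul_le_mul_of_nonneg_right (Real.exp_le_exp.2 h3) (norm_nonneg _)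
  have hBD : ∀ m, B m ⊆ D := by
    rintro m p ⟨h1, h2⟩
    have h1' : p.1.re ∈ Ih I (h m) := h1
    refine ⟨Icc_sub hIc h1' ⟨by linarith [h0 m], by linarith [h0 m]⟩, hRc _ h2 _
      (fun j => ⟨by positivity, ?_⟩)⟩
    have h3 := le_sm hI (hw j) (h0 m).le h1
    exact mul_le_mul_of_nonneg_right (Real.exp_le_exp.2 h3) (norm_nonneg _)
  have hlim : Tendsto h atTop (𝓝[>] 0) := by
    rw [tendsto_nhdsWithin_iff]
    exact ⟨tendsto_one_div_add_atTop_nhds_zero_nat, Eventually.of_forall fun m => h0 m⟩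
  have hU : (⋃ m, B m) = D := by
    ext p
    rw [mem_iUnion]
    constructor
    · rintro ⟨m, hm⟩; exact hBD m hm
    · rintro ⟨h1, h2⟩
      have h1' : p.1.re ∈ I := h1
      have e1 : ∀ᶠ m in atTop, p.1.re ∈ Ih I (h m) := by
        have c1 : Tendsto (fun m => p.1.re - h m) atTop (𝓝 p.1.re) := by
          have := (tendsto_const_nhds (x := p.1.re)).sub
            (hlim.mono_right nhdsWithin_le_nhds)
          simpa using this
        have c2 : Tendsto (fun m => p.1.re + h m) atTop (𝓝 p.1.re) := by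
          have := (tendsto_const_nhds (x := p.1.re)).add
            (hlim.mono_right nhdsWithin_le_nhds)
          simpa using this
        exact (c1.eventually (hI.mem_nhds h1')).and (c2.eventually (hI.mem_nhds h1'))
      have e2 : Tendsto (fun m => fun j => Real.exp (sm (w j) (h m) p.1.re) * ‖p.2 j‖) atTop
          (𝓝 (fun j => Real.exp (w j p.1.re) * ‖p.2 j‖)) := by
        rw [tendsto_pi_nhds]
        intro j
        have e3 := (sm_tendsto hI (hw j) h1').comp hlim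
        exact ((Real.continuous_exp.tendsto _).comp e3).mul_const _
      have e4 := e2.eventually (hR.mem_nhds h2)
      obtain ⟨m, hm1, hm2⟩ := (e1.and e4).exists
      exact ⟨m, hm1, hm2⟩
  have hsol := exhaust (C := C) B hBo hsub1 (fun i q => f i q.1) G (by
    intro m
    rcases (Ih I (h m)).eq_empty_or_nonempty with he | hne
    · have hBe : ∀ q, q ∉ B m := by
        rintro q ⟨h1, -⟩
        have h1' : q.1.re ∈ Ih I (h m) := h1
        rw [he] at h1'
        exact h1'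
      exact ⟨fun _ _ => 0, fun _ => 0, fun i => differentiableOn_const _, differentiableOn_const _,
        fun i q hq => absurd hq (hBe q), fun q hq => absurd hq (hBe q),
        fun q hq => absurd hq (hBe q)⟩
    · have hUsub : St (Ih I (h m)) ⊆ St I := by
        intro ζ hζ
        exact Icc_sub hIc hζ ⟨by linarith [h0 m], by linarith [h0 m]⟩
      have hUne : (St (Ih I (h m))).Nonempty := by
        obtain ⟨t, ht⟩ := hne
        exact ⟨(t : ℂ), by simpa [St] using ht⟩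
      refine hC n (St (Ih I (h m))) (fun j ζ => sm (w j) (h m) ζ.re) R
        (St_open (Ih_open hI _)) (conv_sc (St_convex (Ih_convex hIc _)) hUne) hUne ?_ ?_ ?_ hR hRc
        f (fun i => (hf i).mono hUsub) (fun i z hz => hfb i z (hUsub hz)) G (hG.mono (hBD m))
        (fun p hp => hGb p (hBD m hp)) (fun p hp => hlow p (hBD m hp))
      · intro hcon
        apply hIu
        rw [eq_univ_iff_forall]
        intro t
        have : (t : ℂ) ∈ St (Ih I (h m)) := by rw [hcon]; trivial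
        simpa [St] using hUsub this
      · intro j
        exact ((re_diff (sm_diff hI (hw j) (h0 m))).continuousOn)
      · intro j
        exact conv_supp (St_open (Ih_open hI _)) (re_convex (sm_convex hI (hw j) (h0 m).le))
          (re_diff (sm_diff hI (hw j) (h0 m))))
  rw [hU] at hsol
  exact hsol

end Pool.Agent.X27.Cor
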