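import Mathlib
import Pool.Agent.X27.Cor.Strip

/-!
Averaging solutions over a translation, descending to the quotient, removing the coordinate
hyperplane.
-/

set_option autoImplicit false

open Set Filter Topology Metric

namespace Pool.Agent.X27.Cor

open Pool.Agent.H788R3.Cor2 (Dom dom_open osgood2)
open Pool.Agent.H720R2.Cor (ultra_lim)

variable {n N : ℕ}

/-- translation of the first coordinate -/
def tr (τ : ℂ) (p : ℂ × (Fin n → ℂ)) : ℂ × (Fin n → ℂ) := (p.1 + τ, p.2)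

theorem tr_diff (τ : ℂ) : Differentiable ℂ (tr (n := n) τ) := by
  unfold tr
  fun_prop

theorem avg1 {D : Set (ℂ × (Fin n → ℂ))} (hD : IsOpen D) {τ : ℂ} (hτ : ∀ p ∈ D, tr τ p ∈ D)
    {C : ℝ} {ι : Type} (g : ι → ℂ × (Fin n → ℂ) → ℂ) (hg : ∀ i, DifferentiableOn ℂ (g i) D)
    (hb : ∀ i, ∀ p ∈ D, ‖g i p‖ ≤ C) :
    ∃ v : ι → ℂ × (Fin n → ℂ) → ℂ, (∀ i, DifferentiableOn ℂ (v i) D) ∧
      (∀ i, ∀ p ∈ D, ‖v i p‖ ≤ C) ∧ (∀ i, ∀ p ∈ D, v i (tr τ p) = v i p) ∧
      ∀ p ∈ D, ∃ u : ℕ → ι → ℂ, (∀ k i, u k i = (1 / ((k : ℂ) + 1)) *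
        ∑ l ∈ Finset.range (k + 1), g i ((tr τ)^[l] p)) ∧
        ∀ i, Tendsto (fun k => u k i) (Ultrafilter.of (atTop : Filter ℕ)) (𝓝 (v i p)) := by
  have hit : ∀ l : ℕ, ∀ p ∈ D, (tr τ)^[l] p ∈ D := by
    intro l
    induction l with
    | zero => intro p hp; exact hp
    | succ l ih => intro p hp; rw [Function.iterate_succ_apply]; exact ih _ (hτ p hp)
  have hitd : ∀ l : ℕ, Differentiable ℂ ((tr (n := n) τ)^[l]) := fun l => (tr_diff τ).iterate l
  set U : ℕ → ι → ℂ × (Fin n → ℂ) → ℂ := fun k i p => (1 / ((k : ℂ) + 1)) *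
        ∑ l ∈ Finset.range (k + 1), g i ((tr τ)^[l] p) with hU
  have hUd : ∀ k i, DifferentiableOn ℂ (U k i) D := by
    intro k i
    refine DifferentiableOn.const_mul ?_ _
    refine DifferentiableOn.fun_sum fun l _ => ?_
    exact (hg i).comp (hitd l).differentiableOn (fun p hp => hit l p hp)
  have hUb : ∀ k i, ∀ p ∈ D, ‖U k i p‖ ≤ C := by
    intro k i p hp
    have h1 : ‖∑ l ∈ Finset.range (k + 1), g i ((tr τ)^[l] p)‖ ≤ (k + 1) * C := by
      refine (norm_sum_le _ _).trans ?_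
      refine (Finset.sum_le_sum (fun l _ => hb i _ (hit l p hp))).trans ?_
      simp
    have h2 : ‖(1 / ((k : ℂ) + 1))‖ = 1 / ((k : ℝ) + 1) := by
      rw [norm_div, norm_one]
      congr 1
      have : ((k : ℂ) + 1) = ((k + 1 : ℝ) : ℂ) := by push_cast; rfl
      rw [this, Complex.norm_real, Real.norm_of_nonneg (by positivity)]
    rw [hU]
    simp only
    rw [norm_mul, h2]
    calc 1 / ((k : ℝ) + 1) * ‖∑ l ∈ Finset.range (k + 1), g i ((tr τ)^[l] p)‖
        ≤ 1 / ((k : ℝ) + 1) * ((k + 1) * C) := by gcongr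
      _ = C := by field_simp
  choose v hv1 hv2 hv3 using fun i => ultra_lim hD (Ultrafilter.of (atTop : Filter ℕ))
    (fun k => U k i) (fun k => hUd k i) (fun k => hUb k i)
  refine ⟨v, hv1, hv2, ?_, fun p hp => ⟨fun k i => U k i p, fun k i => rfl, fun i => hv3 i p hp⟩⟩
  intro i p hp
  have h1 := (hv3 i (tr τ p) (hτ p hp)).sub (hv3 i p hp)
  have h2 : Tendsto (fun k => U k i (tr τ p) - U k i p) (Ultrafilter.of (atTop : Filter ℕ)) (𝓝 0) := by
    refine Tendsto.mono_left ?_ (Ultrafilter.of_le _)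
    rw [tendsto_zero_iff_norm_tendsto_zero]
    have h3 : ∀ k : ℕ, ‖U k i (tr τ p) - U k i p‖ ≤ 2 * C * (1 / ((k : ℝ) + 1)) := by
      intro k
      have h4 : U k i (tr τ p) - U k i p =
          (1 / ((k : ℂ) + 1)) * (g i ((tr τ)^[k + 1] p) - g i p) := by
        rw [hU]
        simp only
        rw [← mul_sub]
        congr 1
        have h5 : ∑ l ∈ Finset.range (k + 1), g i ((tr τ)^[l] (tr τ p)) =
            ∑ l ∈ Finset.range (k + 1), g i ((tr τ)^[l + 1] p) :=
          Finset.sum_congr rfl fun l _ => by rw [Function.iterate_succ_apply]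
        rw [h5, ← Finset.sum_sub_distrib, Finset.sum_range_sub (fun l => g i ((tr τ)^[l] p))]
        rfl
      have h2 : ‖(1 / ((k : ℂ) + 1))‖ = 1 / ((k : ℝ) + 1) := by
        rw [norm_div, norm_one]
        congr 1
        have : ((k : ℂ) + 1) = ((k + 1 : ℝ) : ℂ) := by push_cast; rfl
        rw [this, Complex.norm_real, Real.norm_of_nonneg (by positivity)]
      rw [h4, norm_mul, h2, mul_comm]
      have h5 : ‖g i ((tr τ)^[k + 1] p) - g i p‖ ≤ 2 * C := by
        refine (norm_sub_le _ _).trans ?_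
        have := hb i _ (hit (k + 1) p hp)
        have := hb i p hp
        linarith
      gcongr
    refine squeeze_zero (fun k => norm_nonneg _) h3 ?_
    have := (tendsto_one_div_add_atTop_nhds_zero_nat (𝕜 := ℝ)).const_mul (2 * C)
    simpa using this
  exact sub_eq_zero.1 (tendsto_nhds_unique h1 h2)

/-- averaging the solutions -/
theorem avg {D : Set (ℂ × (Fin n → ℂ))} (hD : IsOpen D) {τ : ℂ} (hτ : ∀ p ∈ D, tr τ p ∈ D)
    {C : ℝ} {f : Fin N → ℂ × (Fin n → ℂ) → ℂ} {G : ℂ × (Fin n → ℂ) → ℂ}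
    (hf : ∀ i, ∀ p ∈ D, f i (tr τ p) = f i p) (hG : ∀ p ∈ D, G (tr τ p) = G p)
    (h : Sol C D f G) :
    ∃ (g : Fin N → ℂ × (Fin n → ℂ) → ℂ) (g₀ : ℂ × (Fin n → ℂ) → ℂ),
      (∀ i, DifferentiableOn ℂ (g i) D) ∧ DifferentiableOn ℂ g₀ D ∧
      (∀ i, ∀ p ∈ D, ‖g i p‖ ≤ C) ∧ (∀ p ∈ D, ‖g₀ p‖ ≤ C) ∧
      (∀ i, ∀ p ∈ D, g i (tr τ p) = g i p) ∧ (∀ p ∈ D, g₀ (tr τ p) = g₀ p) ∧
      ∀ p ∈ D, ∑ i, f i p * g i p + G p * g₀ p = 1 := by
  obtain ⟨g, g₀, h1, h2, h3, h4, h5⟩ := h
  have hit : ∀ l : ℕ, ∀ p ∈ D, (tr τ)^[l] p ∈ D := by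
    intro l
    induction l with
    | zero => intro p hp; exact hp
    | succ l ih => intro p hp; rw [Function.iterate_succ_apply]; exact ih _ (hτ p hp)
  have hfi : ∀ l : ℕ, ∀ i, ∀ p ∈ D, f i ((tr τ)^[l] p) = f i p := by
    intro l i
    induction l with
    | zero => intro p hp; rfl
    | succ l ih => intro p hp; rw [Function.iterate_succ_apply, ih _ (hτ p hp), hf i p hp]
  have hGi : ∀ l : ℕ, ∀ p ∈ D, G ((tr τ)^[l] p) = G p := by
    intro l
    induction l with
    | zero => intro p hp; rfl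
    | succ l ih => intro p hp; rw [Function.iterate_succ_apply, ih _ (hτ p hp), hG p hp]
  obtain ⟨v, v1, v2, v3, v4⟩ := avg1 hD hτ (ι := Fin N ⊕ Unit)
    (fun o => o.elim g (fun _ => g₀)) (by rintro (i | i); exacts [h1 i, h2])
    (by rintro (i | i); exacts [h3 i, h4])
  refine ⟨fun i => v (Sum.inl i), v (Sum.inr ()), fun i => v1 _, v1 _, fun i => v2 _, v2 _,
    fun i => v3 _, v3 _, ?_⟩
  intro p hp
  obtain ⟨u, u1, u2⟩ := v4 p hp
  have t1 : Tendsto (fun k => ∑ i, f i p * u k (Sum.inl i) + G p * u k (Sum.inr ()))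
      (Ultrafilter.of (atTop : Filter ℕ))
      (𝓝 (∑ i, f i p * v (Sum.inl i) p + G p * v (Sum.inr ()) p)) := by
    refine Tendsto.add (tendsto_finsetSum _ fun i _ => ?_) ?_
    · exact (u2 _).const_mul _
    · exact (u2 _).const_mul _
  have t2 : ∀ k : ℕ, ∑ i, f i p * u k (Sum.inl i) + G p * u k (Sum.inr ()) = 1 := by
    intro k
    simp only [u1, Sum.elim_inl, Sum.elim_inr]
    have h6 : ∀ i, f i p * (1 / ((k : ℂ) + 1) * ∑ l ∈ Finset.range (k + 1), g i ((tr τ)^[l] p)) =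
        1 / ((k : ℂ) + 1) * ∑ l ∈ Finset.range (k + 1),
          f i ((tr τ)^[l] p) * g i ((tr τ)^[l] p) := by
      intro i
      rw [mul_left_comm, Finset.mul_sum]
      congr 1
      exact Finset.sum_congr rfl fun l _ => by rw [hfi l i p hp]
    have h7 : G p * (1 / ((k : ℂ) + 1) * ∑ l ∈ Finset.range (k + 1), g₀ ((tr τ)^[l] p)) =
        1 / ((k : ℂ) + 1) * ∑ l ∈ Finset.range (k + 1),
          G ((tr τ)^[l] p) * g₀ ((tr τ)^[l] p) := by
      rw [mul_left_comm, Finset.mul_sum]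
      congr 1
      exact Finset.sum_congr rfl fun l _ => by rw [hGi l p hp]
    rw [Finset.sum_congr rfl (fun i _ => h6 i), h7, ← Finset.mul_sum, ← mul_add,
      Finset.sum_comm, ← Finset.sum_add_distrib,
      Finset.sum_congr rfl (fun l _ => h5 _ (hit l p hp))]
    simp only [Finset.sum_const, Finset.card_range, nsmul_eq_mul, mul_one]
    push_cast
    have : ((k : ℂ) + 1) ≠ 0 := by exact_mod_cast Nat.succ_ne_zero k
    field_simp
  exact tendsto_nhds_unique t1 (tendsto_const_nhds.congr fun k => (t2 k).symm)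

/-- removing the hyperplane `z = 0` -/
theorem fill {D : Set (ℂ × (Fin n → ℂ))} (hD : IsOpen D) {C : ℝ} (hC : 0 ≤ C)
    (u : ℂ × (Fin n → ℂ) → ℂ)
    (hu : DifferentiableOn ℂ u (D ∩ {p | p.1 ≠ 0})) (hb : ∀ p ∈ D, p.1 ≠ 0 → ‖u p‖ ≤ C) :
    ∃ v : ℂ × (Fin n → ℂ) → ℂ, DifferentiableOn ℂ v D ∧ (∀ p ∈ D, ‖v p‖ ≤ C) ∧
      ∀ p ∈ D, p.1 ≠ 0 → v p = u p := by
  have hO : IsOpen (D ∩ {p : ℂ × (Fin n → ℂ) | p.1 ≠ 0}) :=
    hD.inter (isOpen_ne_fun continuous_fst continuous_const)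
  have huA : ∀ p ∈ D, p.1 ≠ 0 → DifferentiableAt ℂ u p := fun p hp h =>
    hu.differentiableAt (hO.mem_nhds ⟨hp, h⟩)
  set v : ℂ × (Fin n → ℂ) → ℂ := fun p =>
    if p.1 = 0 then limUnder (𝓝[≠] (0 : ℂ)) (fun z => u (z, p.2)) else u p with hv
  have hsl : ∀ y : Fin n → ℂ, IsOpen {z : ℂ | (z, y) ∈ D} := fun y =>
    hD.preimage (by fun_prop)
  have hslu : ∀ y : Fin n → ℂ, DifferentiableOn ℂ (fun z => u (z, y)) ({z : ℂ | (z, y) ∈ D} \ {0}) := by
    intro y z hz
    have h1 := huA (z, y) hz.1 hz.2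
    have h2 : DifferentiableAt ℂ (fun z : ℂ => ((z, y) : ℂ × (Fin n → ℂ))) z := by fun_prop
    exact (DifferentiableAt.comp z h1 h2).differentiableWithinAt
  have hbd : ∀ y : Fin n → ℂ, BddAbove (norm ∘ (fun z => u (z, y)) '' ({z : ℂ | (z, y) ∈ D} \ {0})) := by
    intro y
    refine ⟨C, ?_⟩
    rintro _ ⟨z, hz, rfl⟩
    exact hb (z, y) hz.1 hz.2
  have hupd : ∀ y : Fin n → ℂ, (0, y) ∈ D → DifferentiableOn ℂ
      (Function.update (fun z => u (z, y)) 0 (limUnder (𝓝[≠] (0 : ℂ)) (fun z => u (z, y))))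
      {z : ℂ | (z, y) ∈ D} := by
    intro y hy
    exact Complex.differentiableOn_update_limUnder_of_bddAbove ((hsl y).mem_nhds hy) (hslu y) (hbd y)
  have hvu : ∀ y : Fin n → ℂ, (fun z => v (z, y)) =
      Function.update (fun z => u (z, y)) 0 (limUnder (𝓝[≠] (0 : ℂ)) (fun z => u (z, y))) := by
    intro y
    funext z
    by_cases hz : z = 0
    · subst hz; simp [hv]
    · simp [hv, hz]
  have hlim : ∀ y : Fin n → ℂ, (0, y) ∈ D →
      Tendsto (fun z => u (z, y)) (𝓝[≠] (0 : ℂ)) (𝓝 (v (0, y))) := by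
    intro y hy
    have h1 : ContinuousAt (fun z => v (z, y)) 0 := by
      rw [hvu y]
      exact ((hupd y hy).differentiableAt ((hsl y).mem_nhds hy)).continuousAt
    have h2 : Tendsto (fun z => v (z, y)) (𝓝[≠] (0 : ℂ)) (𝓝 (v (0, y))) :=
      h1.tendsto.mono_left nhdsWithin_le_nhds
    refine h2.congr' ?_
    filter_upwards [self_mem_nhdsWithin] with z hz
    have : z ≠ 0 := hz
    simp [hv, this]
  have hvb : ∀ p ∈ D, ‖v p‖ ≤ C := by
    rintro ⟨z, y⟩ hp
    by_cases hz : z = 0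
    · subst hz
      refine le_of_tendsto (hlim y hp).norm ?_
      filter_upwards [self_mem_nhdsWithin,
        mem_nhdsWithin_of_mem_nhds ((hsl y).mem_nhds hp)] with z h1 h2
      exact hb (z, y) h2 h1
    · have : v (z, y) = u (z, y) := by simp [hv, hz]
      rw [this]
      exact hb _ hp hz
  refine ⟨v, osgood2 hD hvb ?_ ?_, hvb, fun p _ hp => by simp [hv, hp]⟩
  · intro y
    by_cases hy : (0, y) ∈ D
    · rw [hvu y]; exact hupd y hy
    · intro z hz
      have hz0 : z ≠ 0 := by rintro rfl; exact hy hz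
      have h1 : DifferentiableAt ℂ (fun z => u (z, y)) z :=
        (hslu y).differentiableAt (((hsl y).sdiff isClosed_singleton).mem_nhds ⟨hz, hz0⟩)
      refine (h1.congr_of_eventuallyEq ?_).differentiableWithinAt
      filter_upwards [isOpen_ne.mem_nhds hz0] with x hx
      have : x ≠ 0 := hx
      simp [hv, this]
  · intro w
    by_cases hw : w = 0
    · subst hw
      intro y0 hy0
      apply DifferentiableAt.differentiableWithinAt
      obtain ⟨ρ, hρ, hball⟩ := Metric.isOpen_iff.1 hD _ hy0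
      set z : ℕ → ℂ := fun k => ((ρ / (2 * ((k : ℝ) + 1)) : ℝ) : ℂ) with hz
      have hz0 : ∀ k, z k ≠ 0 := by
        intro k
        rw [hz]
        simp only
        norm_cast
        positivity
      have hzl : ∀ k, ‖z k‖ < ρ := by
        intro k
        rw [hz]
        simp only
        rw [Complex.norm_real, Real.norm_of_nonneg (by positivity), div_lt_iff₀ (by positivity)]
        have : (0 : ℝ) ≤ k := Nat.cast_nonneg k
        nlinarith
      have hzt : Tendsto z atTop (𝓝[≠] 0) := by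
        rw [tendsto_nhdsWithin_iff]
        refine ⟨?_, Eventually.of_forall fun k => hz0 k⟩
        have h1 : Tendsto (fun k : ℕ => ρ / (2 * ((k : ℝ) + 1))) atTop (𝓝 0) := by
          have h2 := (tendsto_one_div_add_atTop_nhds_zero_nat (𝕜 := ℝ)).const_mul (ρ / 2)
          rw [mul_zero] at h2
          refine h2.congr fun k => ?_
          field_simp
        have h3 := (Complex.continuous_ofReal.tendsto 0).comp h1
        rw [Complex.ofReal_zero] at h3
        exact h3
      have hmem : ∀ k, ∀ y ∈ ball y0 ρ, ((z k, y) : ℂ × (Fin n → ℂ)) ∈ D := by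
        intro k y hy
        refine hball ?_
        rw [mem_ball, Prod.dist_eq, max_lt_iff]
        refine ⟨?_, hy⟩
        simpa using hzl k
      have hmem0 : ∀ y ∈ ball y0 ρ, ((0, y) : ℂ × (Fin n → ℂ)) ∈ D := by
        intro y hy
        refine hball ?_
        rw [mem_ball, Prod.dist_eq, max_lt_iff]
        exact ⟨by simpa using hρ, hy⟩
      obtain ⟨F, F1, -, F3⟩ := ultra_lim (isOpen_ball (x := y0) (ε := ρ))
        (Ultrafilter.of (atTop : Filter ℕ)) (fun k y => u (z k, y)) (C := C) (by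
          intro k y hy
          have h1 := huA (z k, y) (hmem k y hy) (hz0 k)
          have h2 : DifferentiableAt ℂ (fun y : Fin n → ℂ => ((z k, y) : ℂ × (Fin n → ℂ))) y := by
            fun_prop
          exact (DifferentiableAt.comp y h1 h2).differentiableWithinAt)
        (fun k y hy => hb _ (hmem k y hy) (hz0 k))
      have hFv : ∀ y ∈ ball y0 ρ, v (0, y) = F y := by
        intro y hy
        have h1 : Tendsto (fun k => u (z k, y)) (Ultrafilter.of (atTop : Filter ℕ)) (𝓝 (v (0, y))) :=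
          ((hlim y (hmem0 y hy)).comp hzt).mono_left (Ultrafilter.of_le _)
        exact tendsto_nhds_unique h1 (F3 y hy)
      have h2 : DifferentiableAt ℂ F y0 := F1.differentiableAt (isOpen_ball.mem_nhds (mem_ball_self hρ))
      refine h2.congr_of_eventuallyEq ?_
      filter_upwards [isOpen_ball.mem_nhds (mem_ball_self hρ)] with y hy
      exact hFv y hy
    · intro y hy
      have h1 := huA (w, y) hy hw
      have h2 : DifferentiableAt ℂ (fun y : Fin n → ℂ => ((w, y) : ℂ × (Fin n → ℂ))) y := by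
        fun_prop
      have h3 : (fun y : Fin n → ℂ => v (w, y)) = fun y => u (w, y) := by
        funext y; simp [hv, hw]
      rw [h3]
      exact (DifferentiableAt.comp y h1 h2).differentiableWithinAt

end Pool.Agent.X27.Cor
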