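import Mathlib
import Pool.Agent.TH310.Cor.Step
import Pool.Agent.W732.Cor.All
import Pool.Agent.H720R2.Cor.Lim

/-!
Gluing of corona data at a boundary point of the ball.
-/

set_option autoImplicit false

open Metric Set Filter Topology

namespace Pool.Agent.X27.Cor.Dich

open Pool.Agent.W732.Cor (mv S_mv t_mv)
open Pool.Agent.TH310.Cor (V Aut aut_mv one_sub_inner)
open Pool.Agent.H720R2.Cor (ultra_lim)

variable {m N : ℕ}

theorem dist_sq {q z : V m} (hq : ‖q‖ = 1) (hz : z ∈ ball (0 : V m) 1) :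
    ‖z - q‖ ^ 2 ≤ 2 * ‖(1 : ℂ) - inner ℂ q z‖ := by
  rw [mem_ball_zero_iff] at hz
  have h3 : ‖z - q‖ ^ 2 = ‖z‖ ^ 2 - 2 * (inner ℂ q z : ℂ).re + 1 := by
    rw [norm_sub_sq (𝕜 := ℂ), hq]
    have : RCLike.re (inner ℂ z q : ℂ) = (inner ℂ q z : ℂ).re :=
      inner_re_symm (𝕜 := ℂ) _ _
    rw [this]
    ring
  have h5 : ‖z‖ ^ 2 ≤ 1 := by nlinarith [norm_nonneg z]
  have h6 : ((1 : ℂ) - inner ℂ q z).re ≤ ‖(1 : ℂ) - inner ℂ q z‖ := Complex.re_le_norm _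
  rw [Complex.sub_re, Complex.one_re] at h6
  linarith

theorem real_mem {a : ℝ} (ha0 : 0 < a) (ha1 : a < 1) : (a : ℂ) ∈ ball (0 : ℂ) 1 := by
  rw [mem_ball_zero_iff, Complex.norm_real, Real.norm_of_nonneg ha0.le]; exact ha1

/-- the translations push to `q`, uniformly away from `-q` -/
theorem move {q : V m} (hq : ‖q‖ = 1) {η ε : ℝ} (hη : 0 < η) (hε : 0 < ε) :
    ∃ a₀ : ℝ, 0 < a₀ ∧ a₀ < 1 ∧ ∀ a : ℝ, a₀ < a → a < 1 → ∀ z ∈ ball (0 : V m) 1,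
      η ≤ ‖z + q‖ → ‖mv q (a : ℂ) z - q‖ ≤ ε := by
  obtain ⟨s, hs⟩ : ∃ s : ℝ, s = min (min (η ^ 2 / 4) (ε ^ 2 * η ^ 2 / 16)) (1 / 2) := ⟨_, rfl⟩
  have hs0 : 0 < s := by rw [hs]; positivity
  have hs1 : s ≤ η ^ 2 / 4 := by rw [hs]; exact (min_le_left _ _).trans (min_le_left _ _)
  have hs2 : s ≤ ε ^ 2 * η ^ 2 / 16 := by rw [hs]; exact (min_le_left _ _).trans (min_le_right _ _)
  have hs3 : s ≤ 1 / 2 := by rw [hs]; exact min_le_right _ _
  refine ⟨1 - s, by linarith, by linarith, ?_⟩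
  intro a ha ha1 z hz hzq
  have ha0 : 0 < a := by linarith
  obtain ⟨h1, h2, -, h4, -⟩ := t_mv m q hq (a : ℂ) (real_mem ha0 ha1)
  obtain ⟨w, hw⟩ : ∃ w : ℂ, w = inner ℂ q z := ⟨_, rfl⟩
  have h5 := h4 z hz
  rw [← hw, Complex.conj_ofReal] at h5
  have hz' := hz
  rw [mem_ball_zero_iff] at hz'
  have hw1 : ‖w‖ ≤ 1 := by
    rw [hw]
    refine (norm_inner_le_norm _ _).trans ?_
    rw [hq, one_mul]; exact hz'.le
  have hw2 : η ^ 2 / 2 ≤ ‖1 + w‖ := by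
    have h6 := one_sub_inner (p := -q) (z := z) (by rw [norm_neg]; exact hq) hz'.le hη.le
      (by rw [sub_neg_eq_add]; exact hzq)
    rw [inner_neg_left, sub_neg_eq_add, ← hw] at h6
    exact h6
  have hd : η ^ 2 / 4 ≤ ‖1 + (a : ℂ) * w‖ := by
    have h6 : (1 + w) - ((1 - a : ℝ) : ℂ) * w = 1 + (a : ℂ) * w := by push_cast; ring
    have h7 := norm_sub_norm_le (1 + w) (((1 - a : ℝ) : ℂ) * w)
    rw [h6, norm_mul, Complex.norm_real, Real.norm_of_nonneg (by linarith)] at h7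
    nlinarith [norm_nonneg w]
  have hd0 : 0 < ‖1 + (a : ℂ) * w‖ := by
    have : 0 < η ^ 2 / 4 := by positivity
    linarith
  have hdne : 1 + (a : ℂ) * w ≠ 0 := norm_pos_iff.1 hd0
  have h8 : ‖(1 : ℂ) - inner ℂ q (mv q (a : ℂ) z)‖ ≤ 8 * (1 - a) / η ^ 2 := by
    rw [h5]
    have h9 : (1 : ℂ) - (w + a) / (1 + a * w) = ((1 - a : ℝ) : ℂ) * (1 - w) / (1 + a * w) := by
      rw [eq_div_iff hdne, sub_mul, div_mul_cancel₀ _ hdne]
      push_cast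
      ring
    rw [h9, norm_div, norm_mul, Complex.norm_real, Real.norm_of_nonneg (by linarith)]
    have h10 : ‖1 - w‖ ≤ 2 := by
      refine (norm_sub_le _ _).trans ?_
      rw [norm_one]; linarith
    calc (1 - a) * ‖1 - w‖ / ‖1 + (a : ℂ) * w‖ ≤ (1 - a) * 2 / (η ^ 2 / 4) := by
          apply div_le_div₀ (by nlinarith) ?_ (by positivity) hd
          nlinarith
      _ = 8 * (1 - a) / η ^ 2 := by field_simp; ring
  have h11 := dist_sq hq (h2 hz)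
  have h12 : ‖mv q (a : ℂ) z - q‖ ^ 2 ≤ ε ^ 2 := by
    refine h11.trans ?_
    have h13 : 8 * (1 - a) / η ^ 2 ≤ ε ^ 2 / 2 := by
      rw [div_le_iff₀ (by positivity)]
      nlinarith
    linarith
  exact le_of_sq_le_sq h12 hε.le

/-- strict corona data -/
def SD (δ : ℝ) (F : Fin N → V m → ℂ) : Prop :=
  (∀ j, DifferentiableOn ℂ (F j) (ball 0 1)) ∧
    ∃ ε : ℝ, 0 < ε ∧ ∀ z ∈ ball (0 : V m) 1, (∀ j, ‖F j z‖ ≤ 1 - ε) ∧ δ + ε ≤ ∑ j, ‖F j z‖

/-- limits at boundary points -/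
def Lm (F : Fin N → V m → ℂ) (q : V m) (v : Fin N → ℂ) : Prop :=
  ∀ j, Tendsto (F j) (𝓝[ball 0 1] q) (𝓝 (v j))

/-- gluing -/
noncomputable def Hg (F1 F2 : Fin N → V m → ℂ) (v : Fin N → ℂ) (p : V m) (a : ℝ) (j : Fin N)
    (z : V m) : ℂ := F1 j z + F2 j (mv (-p) (a : ℂ) z) - v j

theorem mv_neg (p : V m) (a : ℂ) (z : V m) : mv (-p) a z = mv p (-a) z := by
  unfold mv
  rw [inner_neg_left]
  have h1 : (1 : ℂ) / (1 + starRingEnd ℂ a * -inner ℂ p z) =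
      1 / (1 + starRingEnd ℂ (-a) * inner ℂ p z) := by
    rw [map_neg]; ring
  rw [h1, norm_neg]
  congr 1
  module

theorem Lm_near {F : Fin N → V m → ℂ} {q : V m} {v : Fin N → ℂ} (h : Lm F q v) {ε : ℝ}
    (hε : 0 < ε) : ∃ η : ℝ, 0 < η ∧ ∀ z ∈ ball (0 : V m) 1, ‖z - q‖ < η → ∀ j, ‖F j z - v j‖ ≤ ε := by
  have h1 : ∀ᶠ z in 𝓝[ball (0 : V m) 1] q, ∀ j, ‖F j z - v j‖ ≤ ε := by
    rw [eventually_all]
    intro j
    have h2 := (h j).eventually (closedBall_mem_nhds (v j) hε)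
    filter_upwards [h2] with z hz
    rw [dist_eq_norm] at hz
    exact hz
  obtain ⟨η, hη, h3⟩ := Metric.mem_nhdsWithin_iff.1 h1
  refine ⟨η, hη, fun z hz hzq => ?_⟩
  exact h3 ⟨by rw [mem_ball, dist_eq_norm]; exact hzq, hz⟩

theorem aut_neg {p : V m} (hp : ‖p‖ = 1) {a : ℝ} (ha0 : 0 < a) (ha1 : a < 1) :
    Aut (mv p (a : ℂ)) (mv (-p) (a : ℂ)) := by
  have h := aut_mv t_mv hp (real_mem ha0 ha1)
  have h2 : (mv (-p) (a : ℂ) : V m → V m) = mv p (-(a : ℂ)) := by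
    funext z; exact mv_neg p a z
  rw [h2]
  exact h

theorem Hg_far {F1 F2 : Fin N → V m → ℂ} {v : Fin N → ℂ} {p : V m} (hp : ‖p‖ = 1)
    (h2 : Lm F2 (-p) v) {η ε : ℝ} (hη : 0 < η) (hε : 0 < ε) :
    ∃ a₀ : ℝ, 0 < a₀ ∧ a₀ < 1 ∧ ∀ a : ℝ, a₀ < a → a < 1 → ∀ z ∈ ball (0 : V m) 1,
      η ≤ ‖z - p‖ → ∀ j, ‖Hg F1 F2 v p a j z - F1 j z‖ ≤ ε := by
  obtain ⟨η', hη', h3⟩ := Lm_near h2 hε
  obtain ⟨a₀, h4, h5, h6⟩ := move (q := -p) (by rw [norm_neg]; exact hp) hη (half_pos hη')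
  refine ⟨a₀, h4, h5, fun a ha ha1 z hz hzp j => ?_⟩
  have h7 := h6 a ha ha1 z hz (by rw [← sub_eq_add_neg]; exact hzp)
  have h8 := h3 (mv (-p) (a : ℂ) z) ((aut_neg hp (h4.trans ha) ha1).m2 hz) (by linarith) j
  have h9 : Hg F1 F2 v p a j z - F1 j z = F2 j (mv (-p) (a : ℂ) z) - v j := by
    unfold Hg; ring
  rw [h9]
  exact h8

theorem Hg_SD {δ : ℝ} {F1 F2 : Fin N → V m → ℂ} {v : Fin N → ℂ} {p : V m} (hp : ‖p‖ = 1)
    (s1 : SD δ F1) (s2 : SD δ F2) (h1 : Lm F1 p v) (h2 : Lm F2 (-p) v) :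
    ∃ a₀ : ℝ, 0 < a₀ ∧ a₀ < 1 ∧ ∀ a : ℝ, a₀ < a → a < 1 → SD δ (Hg F1 F2 v p a) := by
  obtain ⟨d1, ε1, hε1, b1⟩ := s1
  obtain ⟨d2, ε2, hε2, b2⟩ := s2
  obtain ⟨ε, hε⟩ : ∃ ε : ℝ, ε = min ε1 ε2 := ⟨_, rfl⟩
  have hε0 : 0 < ε := by rw [hε]; exact lt_min hε1 hε2
  have he1 : ε ≤ ε1 := by rw [hε]; exact min_le_left _ _
  have he2 : ε ≤ ε2 := by rw [hε]; exact min_le_right _ _
  obtain ⟨e, he⟩ : ∃ e : ℝ, e = ε / (2 * (N + 1)) := ⟨_, rfl⟩
  have he0 : 0 < e := by rw [he]; positivity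
  have heN : 2 * (N + 1) * e = ε := by rw [he]; field_simp
  have hN0 : (0 : ℝ) ≤ N := Nat.cast_nonneg N
  have hNe : (N : ℝ) * e ≤ ε / 2 := by nlinarith
  have hee : e ≤ ε / 2 := by nlinarith
  obtain ⟨η, hη, hn⟩ := Lm_near h1 he0
  obtain ⟨a₀, h4, h5, h6⟩ := Hg_far (F1 := F1) hp h2 hη he0
  refine ⟨a₀, h4, h5, fun a ha ha1 => ⟨fun j => ?_, ε / 2, by positivity, fun z hz => ?_⟩⟩
  · have A := aut_neg hp (h4.trans ha) ha1
    exact ((d1 j).add ((d2 j).comp A.d2 A.m2)).sub_const _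
  · -- `Hg` is close to the value of one of the data
    have A := aut_neg hp (h4.trans ha) ha1
    have key : ∃ u : Fin N → ℂ, (∀ j, ‖u j‖ ≤ 1 - ε) ∧ δ + ε ≤ ∑ j, ‖u j‖ ∧
        ∀ j, ‖Hg F1 F2 v p a j z - u j‖ ≤ e := by
      by_cases hzp : ‖z - p‖ < η
      · have h7 := b2 _ (A.m2 hz)
        refine ⟨fun j => F2 j (mv (-p) (a : ℂ) z), fun j => (h7.1 j).trans (by linarith),
          le_trans (by linarith) h7.2, fun j => ?_⟩
        have h8 : Hg F1 F2 v p a j z - F2 j (mv (-p) (a : ℂ) z) = F1 j z - v j := by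
          unfold Hg; ring
        rw [h8]
        exact hn z hz hzp j
      · push Not at hzp
        have h7 := b1 z hz
        exact ⟨fun j => F1 j z, fun j => (h7.1 j).trans (by linarith),
          le_trans (by linarith) h7.2, fun j => h6 a ha ha1 z hz hzp j⟩
    obtain ⟨u, u1, u2, u3⟩ := key
    constructor
    · intro j
      have h7 := norm_sub_norm_le (Hg F1 F2 v p a j z) (u j)
      have h8 := u3 j
      have h9 := u1 j
      linarith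
    · have h7 : ∑ j, ‖u j‖ ≤ ∑ j, (‖Hg F1 F2 v p a j z‖ + e) := by
        refine Finset.sum_le_sum fun j _ => ?_
        have h7 := norm_sub_norm_le (u j) (Hg F1 F2 v p a j z)
        rw [norm_sub_rev] at h7
        have h8 := u3 j
        linarith
      rw [Finset.sum_add_distrib, Finset.sum_const, Finset.card_univ, Fintype.card_fin,
        nsmul_eq_mul] at h7
      linarith

theorem Hg_in {F1 F2 : Fin N → V m → ℂ} {v : Fin N → ℂ} {p : V m} (hp : ‖p‖ = 1)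
    (h1 : Lm F1 p v) {z : V m} (hz : z ∈ ball (0 : V m) 1) {ε : ℝ} (hε : 0 < ε) :
    ∃ a₀ : ℝ, 0 < a₀ ∧ a₀ < 1 ∧ ∀ a : ℝ, a₀ < a → a < 1 →
      ∀ j, ‖Hg F1 F2 v p a j (mv p (a : ℂ) z) - F2 j z‖ ≤ ε := by
  obtain ⟨η', hη', h3⟩ := Lm_near h1 hε
  have hz' := hz
  rw [mem_ball_zero_iff] at hz'
  obtain ⟨a₀, h4, h5, h6⟩ := move (q := p) hp (η := 1 - ‖z‖) (by linarith) (half_pos hη')
  refine ⟨a₀, h4, h5, fun a ha ha1 j => ?_⟩
  have A := aut_neg hp (h4.trans ha) ha1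
  have h7 := h6 a ha ha1 z hz (by
    have := norm_sub_norm_le p (-z)
    rw [norm_neg, sub_neg_eq_add, add_comm, hp] at this
    exact this)
  have h8 := h3 (mv p (a : ℂ) z) (A.m1 hz) (by linarith) j
  have h9 : Hg F1 F2 v p a j (mv p (a : ℂ) z) - F2 j z = F1 j (mv p (a : ℂ) z) - v j := by
    unfold Hg
    rw [A.i1 z hz]; ring
  rw [h9]
  exact h8

/-- the limit of the glued data at `-p` -/
theorem Hg_Lm {F1 F2 : Fin N → V m → ℂ} {v u : Fin N → ℂ} {p : V m} (hp : ‖p‖ = 1)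
    (h1 : Lm F1 (-p) u) (h2 : Lm F2 (-p) v) {a : ℝ} (ha0 : 0 < a) (ha1 : a < 1) :
    Lm (Hg F1 F2 v p a) (-p) u := by
  intro j
  have A := aut_neg hp ha0 ha1
  have hpp : (inner ℂ p p : ℂ) = 1 := by
    rw [inner_self_eq_norm_sq_to_K, hp]; norm_num
  have h3 : ContinuousAt (mv (-p) (a : ℂ)) (-p) := by
    have hin : Differentiable ℂ (fun z : V m => (inner ℂ (-p) z : ℂ)) :=
      (innerSL ℂ (-p) : V m →L[ℂ] ℂ).differentiable
    have e1 : ContinuousAt (fun z : V m => 1 / (1 + starRingEnd ℂ (a : ℂ) * inner ℂ (-p) z)) (-p) := by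
      refine ContinuousAt.div continuousAt_const ?_ ?_
      · exact (continuousAt_const.add (continuousAt_const.mul hin.continuous.continuousAt))
      · rw [inner_neg_left, inner_neg_right, hpp, Complex.conj_ofReal]
        simp only [neg_neg, mul_one]
        intro h0
        have := congrArg Complex.re h0
        simp at this
        linarith
    have e2 : Continuous (fun z : V m => ((inner ℂ (-p) z : ℂ) + a) • (-p) +
        ((√(1 - ‖(a : ℂ)‖ ^ 2) : ℝ) : ℂ) • (z - (inner ℂ (-p) z : ℂ) • (-p))) := by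
      have hc := hin.continuous
      fun_prop
    exact e1.smul e2.continuousAt
  have h4 : mv (-p) (a : ℂ) (-p) = -p := by
    unfold mv
    rw [inner_neg_left, inner_neg_right, hpp, Complex.conj_ofReal]
    simp only [neg_neg, mul_one, one_smul, sub_self, smul_zero, add_zero]
    rw [smul_smul, one_div, inv_mul_cancel₀, one_smul]
    intro h0
    have := congrArg Complex.re h0
    simp at this
    linarith
  have h5 : Tendsto (mv (-p) (a : ℂ)) (𝓝[ball 0 1] (-p)) (𝓝[ball 0 1] (-p)) := by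
    rw [tendsto_nhdsWithin_iff]
    constructor
    · have := h3.tendsto
      rw [h4] at this
      exact this.mono_left nhdsWithin_le_nhds
    · filter_upwards [self_mem_nhdsWithin] with z hz
      exact A.m2 hz
  have h6 := ((h1 j).add ((h2 j).comp h5)).sub_const (v j)
  rw [add_sub_cancel_right] at h6
  exact h6

/-- local version of the ultralimit lemma -/
theorem ultra_local {X : Type*} [NormedAddCommGroup X] [NormedSpace ℂ X] {B : Set X} {C : ℝ}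
    {ι : Type*} (𝒰 : Ultrafilter ι) (D : ι → Set X) (f : ι → X → ℂ)
    (hd : ∀ n, DifferentiableOn ℂ (f n) (D n)) (hb : ∀ n, ∀ p ∈ D n, ‖f n p‖ ≤ C)
    (hD : ∀ p ∈ B, ∃ r : ℝ, 0 < r ∧ ∀ᶠ n in (𝒰 : Filter ι), ball p r ⊆ D n) :
    ∃ F : X → ℂ, DifferentiableOn ℂ F B ∧ (∀ p ∈ B, ‖F p‖ ≤ C) ∧
      ∀ p ∈ B, Tendsto (fun n => f n p) 𝒰 (𝓝 (F p)) := by
  classical
  have key : ∀ p ∈ B, ∃ (r : ℝ) (v : X → ℂ), 0 < r ∧ DifferentiableOn ℂ v (ball p r) ∧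
      (∀ q ∈ ball p r, ‖v q‖ ≤ C) ∧ ∀ q ∈ ball p r, Tendsto (fun n => f n q) 𝒰 (𝓝 (v q)) := by
    intro p hp
    obtain ⟨r, hr, hev⟩ := hD p hp
    have hC : 0 ≤ C := by
      obtain ⟨n, hn⟩ := hev.exists
      exact (norm_nonneg _).trans (hb n p (hn (mem_ball_self hr)))
    obtain ⟨v, hv1, hv2, hv3⟩ := ultra_lim (isOpen_ball (x := p) (ε := r)) 𝒰
      (fun n => if ball p r ⊆ D n then f n else 0) (C := C) (by
        intro n
        split_ifs with h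
        · exact (hd n).mono h
        · exact differentiableOn_const _) (by
        intro n q hq
        split_ifs with h
        · exact hb n q (h hq)
        · simpa using hC)
    refine ⟨r, v, hr, hv1, hv2, fun q hq => ?_⟩
    refine (hv3 q hq).congr' ?_
    filter_upwards [hev] with n hn
    rw [if_pos hn]
  choose! r v hr hv1 hv2 hv3 using key
  set F : X → ℂ := fun p => if p ∈ B then v p p else 0 with hF
  have hFe : ∀ p ∈ B, ∀ q ∈ B, q ∈ ball p (r p) → F q = v p q := by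
    intro p hp q hq hqp
    have h1 : F q = v q q := by rw [hF]; simp [hq]
    rw [h1]
    exact tendsto_nhds_unique (hv3 q hq q (mem_ball_self (hr q hq))) (hv3 p hp q hqp)
  refine ⟨F, ?_, ?_, ?_⟩
  · intro p hp
    have h1 : DifferentiableAt ℂ (v p) p :=
      (hv1 p hp).differentiableAt (isOpen_ball.mem_nhds (mem_ball_self (hr p hp)))
    refine (h1.differentiableWithinAt (s := B)).congr_of_eventuallyEq ?_ ?_
    · have h2 : ball p (r p) ∈ 𝓝[B] p :=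
        mem_nhdsWithin_of_mem_nhds (isOpen_ball.mem_nhds (mem_ball_self (hr p hp)))
      filter_upwards [h2, self_mem_nhdsWithin] with q hq hqB
      exact hFe p hp q hqB hq
    · exact hFe p hp p hp (mem_ball_self (hr p hp))
  · intro p hp
    rw [hFe p hp p hp (mem_ball_self (hr p hp))]
    exact hv2 p hp p (mem_ball_self (hr p hp))
  · intro p hp
    rw [hFe p hp p hp (mem_ball_self (hr p hp))]
    exact hv3 p hp p (mem_ball_self (hr p hp))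

/-- solvability on `ball 0 1 ∩ W` with bound `M` -/
def SolW (M : ℝ) (W : Set (V m)) (F : Fin N → V m → ℂ) : Prop :=
  ∃ g : Fin N → V m → ℂ, (∀ j, DifferentiableOn ℂ (g j) (ball 0 1 ∩ W)) ∧
    (∀ j, ∀ z ∈ ball (0 : V m) 1 ∩ W, ‖g j z‖ ≤ M) ∧
    ∀ z ∈ ball (0 : V m) 1 ∩ W, ∑ j, F j z * g j z = 1

/-- semicontinuity -/
theorem lsc {ι : Type*} (𝒰 : Ultrafilter ι) {M : ℝ} {B : Set (V m)} (D : ι → Set (V m))
    (Fs : ι → Fin N → V m → ℂ) (F : Fin N → V m → ℂ)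
    (hsol : ∀ᶠ n in (𝒰 : Filter ι), ∃ g : Fin N → V m → ℂ, (∀ j, DifferentiableOn ℂ (g j) (D n)) ∧
      (∀ j, ∀ z ∈ D n, ‖g j z‖ ≤ M) ∧ ∀ z ∈ D n, ∑ j, Fs n j z * g j z = 1)
    (hD : ∀ p ∈ B, ∃ r : ℝ, 0 < r ∧ ∀ᶠ n in (𝒰 : Filter ι), ball p r ⊆ D n)
    (hF : ∀ p ∈ B, ∀ j, Tendsto (fun n => Fs n j p) 𝒰 (𝓝 (F j p))) :
    ∃ g : Fin N → V m → ℂ, (∀ j, DifferentiableOn ℂ (g j) B) ∧
      (∀ j, ∀ z ∈ B, ‖g j z‖ ≤ M) ∧ ∀ z ∈ B, ∑ j, F j z * g j z = 1 := by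
  classical
  have h0 : ∀ n, ∃ g : Fin N → V m → ℂ, (∃ g' : Fin N → V m → ℂ,
      (∀ j, DifferentiableOn ℂ (g' j) (D n)) ∧ (∀ j, ∀ z ∈ D n, ‖g' j z‖ ≤ M) ∧
        ∀ z ∈ D n, ∑ j, Fs n j z * g' j z = 1) →
      (∀ j, DifferentiableOn ℂ (g j) (D n)) ∧ (∀ j, ∀ z ∈ D n, ‖g j z‖ ≤ M) ∧
        ∀ z ∈ D n, ∑ j, Fs n j z * g j z = 1 := by
    intro n
    by_cases h : ∃ g' : Fin N → V m → ℂ,
      (∀ j, DifferentiableOn ℂ (g' j) (D n)) ∧ (∀ j, ∀ z ∈ D n, ‖g' j z‖ ≤ M) ∧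
        ∀ z ∈ D n, ∑ j, Fs n j z * g' j z = 1
    · obtain ⟨g, hg⟩ := h
      exact ⟨g, fun _ => hg⟩
    · exact ⟨fun _ _ => 0, fun h' => absurd h' h⟩
  choose g hg using h0
  set P : Set ι := {n | ∃ g' : Fin N → V m → ℂ,
      (∀ j, DifferentiableOn ℂ (g' j) (D n)) ∧ (∀ j, ∀ z ∈ D n, ‖g' j z‖ ≤ M) ∧
        ∀ z ∈ D n, ∑ j, Fs n j z * g' j z = 1} with hP
  set D' : ι → Set (V m) := fun n => if n ∈ P then D n else ∅ with hD'
  have hPe : ∀ᶠ n in (𝒰 : Filter ι), n ∈ P := hsol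
  have hD2 : ∀ p ∈ B, ∃ r : ℝ, 0 < r ∧ ∀ᶠ n in (𝒰 : Filter ι), ball p r ⊆ D' n := by
    intro p hp
    obtain ⟨r, hr, h1⟩ := hD p hp
    refine ⟨r, hr, ?_⟩
    filter_upwards [h1, hPe] with n h2 h3
    rw [hD']
    simp only [if_pos h3]
    exact h2
  have hsub : ∀ n, ∀ z ∈ D' n, n ∈ P ∧ z ∈ D n := by
    intro n z hz
    rw [hD'] at hz
    simp only at hz
    split_ifs at hz with h
    · exact ⟨h, hz⟩
    · exact absurd hz (notMem_empty z)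
  choose G G1 G2 G3 using fun j => ultra_local 𝒰 D' (fun n => g n j) (C := M) (B := B)
    (by
      intro n z hz
      obtain ⟨h1, h2⟩ := hsub n z hz
      have h3 : D' n = D n := by rw [hD']; simp [h1]
      rw [h3]
      exact (hg n h1).1 j z h2)
    (by
      intro n z hz
      obtain ⟨h1, h2⟩ := hsub n z hz
      exact (hg n h1).2.1 j z h2) hD2
  refine ⟨G, G1, G2, fun z hz => ?_⟩
  have t1 : Tendsto (fun n => ∑ j, Fs n j z * g n j z) 𝒰 (𝓝 (∑ j, F j z * G j z)) :=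
    tendsto_finsetSum _ fun j _ => (hF z hz j).mul (G3 j z hz)
  refine tendsto_nhds_unique t1 (tendsto_const_nhds.congr' ?_)
  obtain ⟨r, hr, h1⟩ := hD2 z hz
  filter_upwards [h1] with n hn
  obtain ⟨h2, h3⟩ := hsub n z (hn (mem_ball_self hr))
  exact ((hg n h2).2.2 z h3).symm

end Pool.Agent.X27.Cor.Dich
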