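import Mathlib
import Pool.Agent.TH310.Cor.Whit2

/-!
Uniform local solvability at all boundary points gives uniform solvability on the ball.
-/

set_option autoImplicit false

open Metric Set Filter Topology WeakDual

namespace Pool.Agent.X27.Cor

open Pool.Agent.H326R3.CB (Bt)
open Pool.Agent.W732.Cor (mv S_mv S_ball)
open Pool.Agent.TH310.Cor

variable {m : ℕ}

theorem glob {I ι : Type} [Fintype ι]
    {F : I → ι → V m → ℂ} (hF : ∀ i j, HB (F i j)) {δ : ℝ} (hδ : 0 < δ)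
    (hlow : ∀ i, ∀ z ∈ ball (0 : V m) 1, δ ≤ ∑ j, ‖F i j z‖)
    (hloc : ∀ q : V m, ‖q‖ = 1 → SolvL F q) : Solv F := by
  classical
  by_contra hns
  let tJ : TopologicalSpace I := ⊥
  have dJ : DiscreteTopology I := ⟨rfl⟩
  obtain ⟨χ, hχ⟩ := exists_zero hF hns
  obtain ⟨q, hq⟩ : ∃ q, q = pt χ := ⟨_, rfl⟩
  have hq1 : ‖q‖ = 1 := by
    rcases lt_or_eq_of_le (pt_norm χ) with h3 | h3
    · exfalso
      have hpt : pt χ ∈ ball (0 : V m) 1 := by rw [mem_ball_zero_iff]; exact h3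
      refine char_index (ι := ι) χ (fun o x => F x o (pt χ)) (C := 1)
        (fun o x => (hF x o).2 _ hpt) hδ (fun x => hlow x _ hpt) ?_
      intro o
      have h4 := char_interior χ h3 (El (f := fun x z => F x o z)
        (fun x => hF x o))
      rw [hχ o] at h4
      refine Eq.trans (congrArg χ ?_) h4.symm
      exact ext' fun x => rfl
    · rw [hq]; exact h3
  obtain ⟨C, ρ, hρ, hg⟩ := hloc q hq1
  choose g hgd hgb hid using hg
  obtain ⟨C', hC'⟩ : ∃ C', C' = max C 1 := ⟨_, rfl⟩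
  have hC'1 : 1 ≤ C' := by rw [hC']; exact le_max_right _ _
  have hCC' : C ≤ C' := by rw [hC']; exact le_max_left _ _
  have hC'0 : 0 < C' := by linarith
  obtain ⟨K, r, hK, hr, hlg⟩ := lgV (η := ρ ^ 2 / 2) (by positivity)
  have hsub : ∀ z ∈ ball (0 : V m) 1, ‖(inner ℂ q z : ℂ) - 1‖ < ρ ^ 2 / 2 →
      z ∈ ball (0 : V m) 1 ∩ ball q ρ := by
    intro z hz hzq
    refine ⟨hz, ?_⟩
    rw [mem_ball, dist_eq_norm]
    by_contra hcon
    push Not at hcon
    have h3 := one_sub_inner hq1 (by rw [mem_ball_zero_iff] at hz; exact hz.le) hρ.le hcon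
    rw [norm_sub_rev] at h3
    linarith
  have hG : ∀ (j : ι) (x : I), ∃ G : V m → ℂ, DifferentiableOn ℂ G (ball 0 1) ∧
      (∀ z ∈ ball (0 : V m) 1, ‖G z‖ ≤ K) ∧ ∀ ε, 0 < ε → ∀ z ∈ ball (0 : V m) 1,
        ‖(inner ℂ q z : ℂ) - 1‖ < r ε → ‖G z - g x j z / C'‖ ≤ ε := by
    intro j x
    refine hlg m q hq1 (fun z => g x j z / C') ?_ ?_
    · have h3 : DifferentiableOn ℂ (fun z => g x j z * (C' : ℂ)⁻¹) (ball (0 : V m) 1 ∩ ball q ρ) :=
        (hgd x j).mul_const _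
      simp only [div_eq_mul_inv]
      refine h3.mono ?_
      rintro z ⟨hz, hz2⟩
      exact hsub z hz hz2
    · intro z hz hz2
      rw [norm_div, Complex.norm_real, Real.norm_of_nonneg hC'0.le, div_le_one hC'0]
      exact (hgb x j z (hsub z hz hz2)).trans hCC'
  choose G hG1 hG2 hG3 using hG
  obtain ⟨ε, hε⟩ : ∃ ε : ℝ, ε = 1 / (2 * C' * (Fintype.card ι + 1)) := ⟨_, rfl⟩
  have hε0 : 0 < ε := by rw [hε]; positivity
  have hNε : (Fintype.card ι : ℝ) * (C' * ε) ≤ 1 / 2 := by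
    rw [hε]
    have h3 : (Fintype.card ι : ℝ) * (C' * (1 / (2 * C' * (Fintype.card ι + 1)))) =
        (Fintype.card ι / (Fintype.card ι + 1)) * (1 / 2) := by field_simp
    rw [h3]
    have h4 : (Fintype.card ι : ℝ) / (Fintype.card ι + 1) ≤ 1 := by
      rw [div_le_one (by positivity)]; linarith
    linarith
  have hu0 : χ (∑ j, El (f := fun x => F x j) (fun x => hF x j) *
      (mk (hG1 j) (hG2 j) * Cc (C' : ℂ))) = 0 := by
    rw [map_sum]
    refine Finset.sum_eq_zero fun j _ => ?_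
    rw [map_mul, hχ j, zero_mul]
  have hu1 : ‖χ (∑ j, El (f := fun x => F x j) (fun x => hF x j) *
      (mk (hG1 j) (hG2 j) * Cc (C' : ℂ)) - 1)‖ ≤ 1 / 2 := by
    refine char_boundary χ (by rw [← hq]; exact hq1) _ (ρ := min (r ε) (ρ ^ 2 / 2))
      (lt_min (hr ε hε0) (by positivity)) (by norm_num) univ
      (by rw [Id_univ, map_one]) ?_
    intro x _ z hz
    rw [← hq] at hz
    have hz1 : ‖(inner ℂ q (z : V m) : ℂ) - 1‖ ≤ ‖(z : V m) - q‖ := by
      have h3 : (inner ℂ q (z : V m) : ℂ) - 1 = inner ℂ q ((z : V m) - q) := by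
        rw [inner_sub_right, inner_self_eq_norm_sq_to_K, hq1]
        norm_num
      rw [h3]
      refine (norm_inner_le_norm _ _).trans ?_
      rw [hq1, one_mul]
    have hz2 : ‖(inner ℂ q (z : V m) : ℂ) - 1‖ < r ε := by
      have := min_le_left (r ε) (ρ ^ 2 / 2); linarith
    have hz3 : ‖(inner ℂ q (z : V m) : ℂ) - 1‖ < ρ ^ 2 / 2 := by
      have := min_le_right (r ε) (ρ ^ 2 / 2); linarith
    have hzm := hsub z z.2 hz3
    have h3 : (∑ j, El (f := fun x => F x j) (fun x => hF x j) *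
        (mk (hG1 j) (hG2 j) * Cc (C' : ℂ)) - 1 : HI I m).1 (x, z) =
        ∑ j, F x j z * (C' * (G j x z - g x j z / C')) := by
      have h4 : (∑ j, El (f := fun x => F x j) (fun x => hF x j) *
        (mk (hG1 j) (hG2 j) * Cc (C' : ℂ)) - 1 : HI I m).1 (x, z) =
        (∑ j, El (f := fun x => F x j) (fun x => hF x j) *
        (mk (hG1 j) (hG2 j) * Cc (C' : ℂ)) : HI I m).1 (x, z) - 1 := rfl
      rw [h4, Pool.Agent.TH310.Cor.sum_apply, ← hid x z hzm, ← Finset.sum_sub_distrib]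
      refine Finset.sum_congr rfl fun j _ => ?_
      change F x j z * (G j x z * C') - F x j z * g x j z = _
      have h5 : (C' : ℂ) ≠ 0 := by exact_mod_cast hC'0.ne'
      field_simp
    rw [h3]
    refine (norm_sum_le _ _).trans ?_
    have h4 : ∀ j ∈ (Finset.univ : Finset ι),
        ‖F x j z * (C' * (G j x z - g x j z / C'))‖ ≤ C' * ε := by
      intro j _
      rw [norm_mul, norm_mul, Complex.norm_real, Real.norm_of_nonneg hC'0.le]
      have h5 := (hF x j).2 z z.2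
      have h6 := hG3 j x ε hε0 z z.2 hz2
      calc ‖F x j z‖ * (C' * ‖G j x z - g x j z / C'‖) ≤ 1 * (C' * ε) := by
            gcongr
        _ = C' * ε := one_mul _
    refine (Finset.sum_le_sum h4).trans ?_
    rw [Finset.sum_const, Finset.card_univ, nsmul_eq_mul]
    exact hNε
  rw [map_sub, hu0, map_one, zero_sub, norm_neg, norm_one] at hu1
  norm_num at hu1

/-- the part near `p` of the domain `‖z‖² < 1 + κ ‖z - ⟨z, p⟩ p‖²` -/
def Ell {m : ℕ} (p : V m) (r κ : ℝ) : Set (V m) :=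
  {z | ‖z - p‖ < r ∧ ‖z‖ ^ 2 < 1 + κ * ‖z - (inner ℂ p z : ℂ) • p‖ ^ 2}

theorem Ell_mono {p : V m} {r κ κ' : ℝ} (h : κ ≤ κ') : Ell p r κ ⊆ Ell p r κ' := by
  rintro z ⟨h1, h2⟩
  refine ⟨h1, h2.trans_le ?_⟩
  gcongr

theorem decomp {p : V m} (hp : ‖p‖ = 1) (z : V m) :
    (inner ℂ p (z - (inner ℂ p z : ℂ) • p) : ℂ) = 0 := by
  rw [inner_sub_right, inner_smul_right, inner_self_eq_norm_sq_to_K, hp]
  norm_num

theorem pyth {p y : V m} (hp : ‖p‖ = 1) (hy : (inner ℂ p y : ℂ) = 0) (a b : ℂ) :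
    ‖a • p + b • y‖ ^ 2 = ‖a‖ ^ 2 + ‖b‖ ^ 2 * ‖y‖ ^ 2 := by
  have h1 := norm_add_sq_eq_norm_sq_add_norm_sq_of_inner_eq_zero (𝕜 := ℂ) (a • p) (b • y)
    (by rw [inner_smul_left, inner_smul_right, hy, mul_zero, mul_zero])
  rw [pow_two, h1, norm_smul, norm_smul, hp, mul_one]
  ring

theorem mv_eq (p : V m) (c : ℂ) (z : V m) : mv p c z =
    ((inner ℂ p z + c) / (1 + starRingEnd ℂ c * inner ℂ p z)) • p +
    (((√(1 - ‖c‖ ^ 2) : ℝ) : ℂ) / (1 + starRingEnd ℂ c * inner ℂ p z)) •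
      (z - (inner ℂ p z : ℂ) • p) := by
  unfold mv
  rw [smul_add, smul_smul, smul_smul]
  congr 2
  · ring
  · ring

/-- the translations map a fixed neighbourhood of `q ⊥ p` into the domain -/
theorem mv_maps {p q : V m} (hp : ‖p‖ = 1) (hq : ‖q‖ = 1) (hpq : (inner ℂ p q : ℂ) = 0)
    {r κ : ℝ} (hr : 0 < r) (hκ : 0 < κ) : ∃ κ' ρ : ℝ, 0 < κ' ∧ 0 < ρ ∧ ρ ≤ 1 / 2 ∧
      ∀ c ∈ ball (0 : ℂ) 1, ‖1 - c‖ < κ' → MapsTo (mv p c) (ball q ρ) (Ell p r κ) ∧
        DifferentiableOn ℂ (mv p c) (ball q ρ) := by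
  obtain ⟨k, hk⟩ : ∃ k : ℝ, k = min κ 1 := ⟨_, rfl⟩
  have hk0 : 0 < k := by rw [hk]; positivity
  have hk1 : k ≤ 1 := by rw [hk]; exact min_le_right _ _
  have hkκ : k ≤ κ := by rw [hk]; exact min_le_left _ _
  refine ⟨min 1 ((r / 8) ^ 2), k / 2, by positivity, by positivity, by linarith, ?_⟩
  intro c hc hcκ
  rw [mem_ball_zero_iff] at hc
  have hc1 : ‖1 - c‖ < 1 := hcκ.trans_le (min_le_left _ _)
  have hc2 : ‖1 - c‖ < (r / 8) ^ 2 := hcκ.trans_le (min_le_right _ _)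
  have key : ∀ z ∈ ball q (k / 2), ‖(inner ℂ p z : ℂ)‖ < k / 2 ∧
      1 / 2 ≤ ‖1 + starRingEnd ℂ c * inner ℂ p z‖ ∧
      ‖z - (inner ℂ p z : ℂ) • p‖ < 1 + k / 2 := by
    intro z hz
    rw [mem_ball, dist_eq_norm] at hz
    have h1 : ‖(inner ℂ p z : ℂ)‖ < k / 2 := by
      have h3 : (inner ℂ p z : ℂ) = inner ℂ p (z - q) := by rw [inner_sub_right, hpq, sub_zero]
      rw [h3]
      refine (norm_inner_le_norm _ _).trans_lt ?_
      rw [hp, one_mul]
      exact hz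
    refine ⟨h1, ?_, ?_⟩
    · have h2 : ‖starRingEnd ℂ c * inner ℂ p z‖ ≤ 1 / 2 := by
        rw [norm_mul, RCLike.norm_conj]
        nlinarith [norm_nonneg c, norm_nonneg (inner ℂ p z : ℂ)]
      have h3 := norm_sub_norm_le (1 : ℂ) (-(starRingEnd ℂ c * inner ℂ p z))
      rw [norm_one, norm_neg, sub_neg_eq_add] at h3
      linarith
    · have h2 : ‖z‖ < 1 + k / 2 := by
        have := norm_add_le (z - q) q
        rw [sub_add_cancel, hq] at this
        linarith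
      have h3 := pyth hp (decomp hp z) (inner ℂ p z) 1
      rw [one_smul, add_sub_cancel, norm_one, one_pow, one_mul] at h3
      have h4 : ‖z - (inner ℂ p z : ℂ) • p‖ ^ 2 ≤ ‖z‖ ^ 2 := by
        rw [h3]; nlinarith [norm_nonneg (inner ℂ p z : ℂ)]
      have h5 := abs_le_of_sq_le_sq h4 (norm_nonneg _)
      exact (le_of_abs_le (le_of_eq_of_le rfl (by simpa using h5))).trans_lt h2
  constructor
  · intro z hz
    obtain ⟨h1, h2, h3⟩ := key z hz
    refine Ell_mono hkκ ?_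
    obtain ⟨w, hw⟩ : ∃ w : ℂ, w = inner ℂ p z := ⟨_, rfl⟩
    obtain ⟨y, hy⟩ : ∃ y : V m, y = z - (inner ℂ p z : ℂ) • p := ⟨_, rfl⟩
    have hpy : (inner ℂ p y : ℂ) = 0 := by rw [hy]; exact decomp hp z
    have hmz := mv_eq p c z
    rw [← hy, ← hw] at hmz
    rw [← hy] at h3
    rw [← hw] at h1 h2
    obtain ⟨d, hd⟩ : ∃ d : ℂ, d = 1 + starRingEnd ℂ c * w := ⟨_, rfl⟩
    rw [← hd] at h2 hmz
    have hd0 : d ≠ 0 := by rw [← norm_pos_iff]; linarith
    have hdn : 0 < ‖d‖ := by linarith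
    obtain ⟨s, hs⟩ : ∃ s : ℝ, s = √(1 - ‖c‖ ^ 2) := ⟨_, rfl⟩
    have hs0 : 0 ≤ s := by rw [hs]; positivity
    have hs2 : s ^ 2 = 1 - ‖c‖ ^ 2 := by
      rw [hs]; exact Real.sq_sqrt (by nlinarith [norm_nonneg c])
    rw [← hs] at hmz
    have hspos : 0 < s ^ 2 := by rw [hs2]; nlinarith [norm_nonneg c]
    -- the component orthogonal to p
    have hin : (inner ℂ p (mv p c z) : ℂ) = (w + c) / d := by
      rw [hmz, inner_add_right, inner_smul_right, inner_smul_right, hpy,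
        inner_self_eq_norm_sq_to_K, hp]
      norm_num
    have hor : mv p c z - (inner ℂ p (mv p c z) : ℂ) • p = ((s : ℂ) / d) • y := by
      rw [hin, hmz]; abel
    have hn : ‖mv p c z‖ ^ 2 = ‖(w + c) / d‖ ^ 2 + ‖(s : ℂ) / d‖ ^ 2 * ‖y‖ ^ 2 := by
      rw [hmz]; exact pyth hp hpy _ _
    have hid : ‖d‖ ^ 2 - ‖w + c‖ ^ 2 = s ^ 2 * (1 - ‖w‖ ^ 2) := by
      rw [hs2, hd, ← Complex.normSq_eq_norm_sq, ← Complex.normSq_eq_norm_sq,
        ← Complex.normSq_eq_norm_sq, ← Complex.normSq_eq_norm_sq, Complex.normSq_apply,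
        Complex.normSq_apply, Complex.normSq_apply, Complex.normSq_apply]
      simp
      ring
    constructor
    · -- close to p
      have e1 : mv p c z - p = ((w + c) / d - 1) • p + ((s : ℂ) / d) • y := by
        rw [hmz, sub_smul, one_smul]; abel
      have e2 : (w + c) / d - 1 = -(((1 - c) - w * starRingEnd ℂ (1 - c)) / d) := by
        rw [map_sub, map_one, div_sub_one hd0, ← neg_div, hd]
        congr 1
        ring
      have e3 : ‖(w + c) / d - 1‖ ≤ 3 * ‖1 - c‖ := by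
        rw [e2, norm_neg, norm_div, div_le_iff₀ hdn]
        have h4 := norm_sub_le (1 - c) (w * starRingEnd ℂ (1 - c))
        rw [norm_mul, RCLike.norm_conj] at h4
        have h5 : ‖w‖ * ‖1 - c‖ ≤ 1 / 2 * ‖1 - c‖ := by
          gcongr; linarith
        nlinarith [norm_nonneg (1 - c)]
      have e4 : ‖(s : ℂ) / d‖ * ‖y‖ ≤ 3 * s := by
        rw [norm_div, Complex.norm_real, Real.norm_of_nonneg hs0, div_mul_eq_mul_div,
          div_le_iff₀ hdn]
        have h4 : ‖y‖ ≤ 3 / 2 := by linarith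
        nlinarith [norm_nonneg y]
      obtain ⟨t, ht⟩ : ∃ t : ℝ, t = √‖1 - c‖ := ⟨_, rfl⟩
      have ht0 : 0 ≤ t := by rw [ht]; positivity
      have ht2 : t ^ 2 = ‖1 - c‖ := by rw [ht]; exact Real.sq_sqrt (norm_nonneg _)
      have ht1 : t < 1 := by nlinarith
      have htr : t < r / 8 := by
        refine lt_of_pow_lt_pow_left₀ 2 (by positivity) ?_
        rw [ht2]; exact hc2
      have hst : s ≤ 3 / 2 * t := by
        refine le_of_sq_le_sq ?_ (by positivity)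
        rw [hs2, mul_pow, ht2]
        have h4 := norm_sub_norm_le (1 : ℂ) c
        rw [norm_one] at h4
        nlinarith [norm_nonneg c, norm_nonneg (1 - c)]
      rw [e1]
      refine (norm_add_le _ _).trans_lt ?_
      rw [norm_smul, norm_smul, hp, mul_one]
      have e5 : 3 * ‖1 - c‖ ≤ 3 * t := by rw [← ht2]; nlinarith
      linarith
    · rw [hor, hn, norm_smul, mul_pow, norm_div, norm_div, Complex.norm_real,
        Real.norm_of_nonneg hs0, div_pow, div_pow]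
      have hd2 : 0 < ‖d‖ ^ 2 := by positivity
      have h4 : (1 - k) * ‖y‖ ^ 2 < 1 - ‖w‖ ^ 2 := by
        have h5 : ‖y‖ ^ 2 ≤ (1 + k / 2) ^ 2 := pow_le_pow_left₀ (norm_nonneg _) h3.le 2
        have h6 : ‖w‖ ^ 2 < (k / 2) ^ 2 := pow_lt_pow_left₀ h1 (norm_nonneg _) (by norm_num)
        have h7 : (1 - k) * ‖y‖ ^ 2 ≤ (1 - k) * (1 + k / 2) ^ 2 := by
          apply mul_le_mul_of_nonneg_left h5; linarith
        have h8 : (1 - k) * (1 + k / 2) ^ 2 = 1 - 3 / 4 * k ^ 2 - k ^ 3 / 4 := by ring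
        have h9 : (k / 2) ^ 2 = k ^ 2 / 4 := by ring
        have h10 : 0 < k ^ 2 := by positivity
        have h11 : 0 < k ^ 3 := by positivity
        linarith
      have h5 : ‖w + c‖ ^ 2 + s ^ 2 * ‖y‖ ^ 2 < ‖d‖ ^ 2 + k * (s ^ 2 * ‖y‖ ^ 2) := by
        have h8 := mul_lt_mul_of_pos_left h4 hspos
        have h9 : s ^ 2 * ((1 - k) * ‖y‖ ^ 2) = s ^ 2 * ‖y‖ ^ 2 - k * (s ^ 2 * ‖y‖ ^ 2) := by ring
        linarith
      have h6 : ‖w + c‖ ^ 2 / ‖d‖ ^ 2 + s ^ 2 / ‖d‖ ^ 2 * ‖y‖ ^ 2 =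
          (‖w + c‖ ^ 2 + s ^ 2 * ‖y‖ ^ 2) / ‖d‖ ^ 2 := by ring
      have h7 : 1 + k * (s ^ 2 / ‖d‖ ^ 2 * ‖y‖ ^ 2) =
          (‖d‖ ^ 2 + k * (s ^ 2 * ‖y‖ ^ 2)) / ‖d‖ ^ 2 := by
        field_simp
      rw [h6, h7]
      exact div_lt_div_of_pos_right h5 hd2
  · have hin : Differentiable ℂ (fun z : V m => (inner ℂ p z : ℂ)) :=
      (innerSL ℂ p : V m →L[ℂ] ℂ).differentiable
    have e0 : Differentiable ℂ (fun z : V m => 1 + starRingEnd ℂ c * inner ℂ p z) :=
      (hin.const_mul _).const_add _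
    have e1 : DifferentiableOn ℂ (fun z : V m => 1 / (1 + starRingEnd ℂ c * inner ℂ p z))
        (ball q (k / 2)) := by
      simp only [one_div]
      refine DifferentiableOn.inv e0.differentiableOn ?_
      intro z hz h0
      have := (key z hz).2.1
      rw [h0, norm_zero] at this
      linarith
    have e3 : Differentiable ℂ (fun z : V m => ((inner ℂ p z : ℂ) + c) • p) :=
      (hin.add_const c).smul_const p
    have e4 : Differentiable ℂ (fun z : V m => z - (inner ℂ p z : ℂ) • p) :=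
      differentiable_id.sub (hin.smul_const p)
    have e5 : Differentiable ℂ (fun z : V m => ((√(1 - ‖c‖ ^ 2) : ℝ) : ℂ) •
        (z - (inner ℂ p z : ℂ) • p)) := e4.fun_const_smul _
    exact e1.fun_smul (e3.fun_add e5).differentiableOn

end Pool.Agent.X27.Cor
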