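import Mathlib
import Pool.Agent.X27.Cor.Avg

/-!
Corona theorem over annuli and discs.
-/

set_option autoImplicit false

open Set Filter Topology Metric

namespace Pool.Agent.X27.Cor

open Pool.Agent.H788R3.Cor2 (Dom dom_open)

variable {n N : ℕ}

/-- the plane set `{log |z| ∈ I}` -/
def An (I : Set ℝ) : Set ℂ := {z | z ≠ 0 ∧ Real.log ‖z‖ ∈ I}

/-- descending along `exp` -/
theorem desc {D : Set (ℂ × (Fin n → ℂ))} (hD : IsOpen D)
    (hτ : ∀ p ∈ D, tr (2 * Real.pi * Complex.I) p ∈ D)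
    (hτ' : ∀ p ∈ D, tr (-(2 * Real.pi * Complex.I)) p ∈ D) {g : ℂ × (Fin n → ℂ) → ℂ}
    (hg : DifferentiableOn ℂ g D) (hinv : ∀ p ∈ D, g (tr (2 * Real.pi * Complex.I) p) = g p) :
    DifferentiableOn ℂ (fun p : ℂ × (Fin n → ℂ) => g (Complex.log p.1, p.2))
      {p | p.1 ≠ 0 ∧ (Complex.log p.1, p.2) ∈ D} := by
  -- invariance under integer multiples
  have hmem : ∀ k : ℤ, ∀ p ∈ D, tr (k * (2 * Real.pi * Complex.I)) p ∈ D := by
    intro k
    induction k using Int.induction_on with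
    | zero => intro p hp; simpa [tr] using hp
    | succ k ih =>
      intro p hp
      have := hτ _ (ih p hp)
      have h2 : tr (2 * Real.pi * Complex.I) (tr ((k : ℤ) * (2 * Real.pi * Complex.I)) p) =
          tr (((k + 1 : ℤ) : ℂ) * (2 * Real.pi * Complex.I)) p := by
        unfold tr
        simp only
        congr 1
        push_cast
        ring
      rw [h2] at this
      exact this
    | pred k ih =>
      intro p hp
      have := hτ' _ (ih p hp)
      have h2 : tr (-(2 * Real.pi * Complex.I)) (tr ((-(k : ℤ) : ℤ) * (2 * Real.pi * Complex.I)) p) =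
          tr (((-(k : ℤ) - 1 : ℤ) : ℂ) * (2 * Real.pi * Complex.I)) p := by
        unfold tr
        simp only
        congr 1
        push_cast
        ring
      rw [h2] at this
      exact this
  have hgk : ∀ k : ℤ, ∀ p ∈ D, g (tr (k * (2 * Real.pi * Complex.I)) p) = g p := by
    intro k
    induction k using Int.induction_on with
    | zero => intro p hp; simp [tr]
    | succ k ih =>
      intro p hp
      have h2 : tr (2 * Real.pi * Complex.I) (tr ((k : ℤ) * (2 * Real.pi * Complex.I)) p) =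
          tr (((k + 1 : ℤ) : ℂ) * (2 * Real.pi * Complex.I)) p := by
        unfold tr
        simp only
        congr 1
        push_cast
        ring
      rw [← h2, hinv _ (hmem k p hp), ih p hp]
    | pred k ih =>
      intro p hp
      have h2 : tr (2 * Real.pi * Complex.I)
          (tr (((-(k : ℤ) - 1 : ℤ) : ℂ) * (2 * Real.pi * Complex.I)) p) =
          tr (((-(k : ℤ) : ℤ) : ℂ) * (2 * Real.pi * Complex.I)) p := by
        unfold tr
        simp only
        congr 1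
        push_cast
        ring
      have h3 := hinv _ (hmem (-(k : ℤ) - 1) p hp)
      rw [h2] at h3
      rw [← h3, ih p hp]
  rintro ⟨z0, y0⟩ ⟨hz0, hp0⟩
  simp only at hz0 hp0
  -- a local branch of the logarithm
  set L : ℂ → ℂ := fun z => Complex.log (z / z0) + Complex.log z0 with hL
  have hL0 : L z0 = Complex.log z0 := by
    rw [hL]; simp [div_self hz0]
  have hLd : DifferentiableAt ℂ L z0 := by
    refine DifferentiableAt.add_const _ ?_
    refine DifferentiableAt.clog (by fun_prop) ?_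
    rw [div_self hz0]
    exact Complex.one_mem_slitPlane
  have hLc : ContinuousAt (fun p : ℂ × (Fin n → ℂ) => (L p.1, p.2)) (z0, y0) := by
    have hc0 := hLd.continuousAt
    have hc1 : ContinuousAt (fun p : ℂ × (Fin n → ℂ) => L p.1) (z0, y0) :=
      ContinuousAt.comp (x := ((z0, y0) : ℂ × (Fin n → ℂ))) (g := L) (f := Prod.fst) hc0
        continuousAt_fst
    exact hc1.prodMk continuousAt_snd
  have hgL : DifferentiableAt ℂ (fun p : ℂ × (Fin n → ℂ) => g (L p.1, p.2)) (z0, y0) := by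
    have h1 : DifferentiableAt ℂ g (L z0, y0) := by
      rw [hL0]
      exact hg.differentiableAt (hD.mem_nhds hp0)
    have h2 : DifferentiableAt ℂ (fun p : ℂ × (Fin n → ℂ) => (L p.1, p.2)) (z0, y0) := by
      refine DifferentiableAt.prodMk ?_ differentiableAt_snd
      exact DifferentiableAt.comp (f := fun p : ℂ × (Fin n → ℂ) => p.1) (z0, y0) hLd
        differentiableAt_fst
    exact DifferentiableAt.comp (f := fun p : ℂ × (Fin n → ℂ) => (L p.1, p.2)) (z0, y0) h1 h2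
  refine (hgL.congr_of_eventuallyEq ?_).differentiableWithinAt
  have e1 : ∀ᶠ p in 𝓝 ((z0, y0) : ℂ × (Fin n → ℂ)), (L p.1, p.2) ∈ D := by
    have : D ∈ 𝓝 (L z0, y0) := by rw [hL0]; exact hD.mem_nhds hp0
    exact hLc.eventually this
  have e2 : ∀ᶠ p in 𝓝 ((z0, y0) : ℂ × (Fin n → ℂ)), p.1 ≠ 0 :=
    (isOpen_ne_fun (continuous_fst (X := ℂ) (Y := Fin n → ℂ)) continuous_const).mem_nhds hz0
  filter_upwards [e1, e2] with p h1 h2
  have h3 : Complex.exp (Complex.log p.1) = Complex.exp (L p.1) := by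
    rw [Complex.exp_log h2, hL]
    simp only
    rw [Complex.exp_add, Complex.exp_log (div_ne_zero h2 hz0), Complex.exp_log hz0]
    field_simp
  obtain ⟨k, hk⟩ := Complex.exp_eq_exp_iff_exists_int.1 h3
  have h4 := hgk k _ h1
  unfold tr at h4
  simp only at h4
  rw [← hk] at h4
  exact h4

/-- **The corona theorem over annuli.** -/
theorem annulus (N : ℕ) (δ : ℝ) (hδ : 0 < δ) : ∃ C : ℝ,
    ∀ (n : ℕ) (I : Set ℝ) (w : Fin n → ℝ → ℝ) (R : Set (Fin n → ℝ)),
      IsOpen I → Convex ℝ I → I ≠ univ → (∀ j, ConvexOn ℝ I (w j)) →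
      IsOpen R → (∀ x ∈ R, ∀ y : Fin n → ℝ, (∀ j, 0 ≤ y j ∧ y j ≤ x j) → y ∈ R) →
      ∀ f : Fin N → ℂ → ℂ, (∀ i, DifferentiableOn ℂ (f i) (An I)) →
        (∀ i, ∀ z ∈ An I, ‖f i z‖ ≤ 1) →
      ∀ G : ℂ × (Fin n → ℂ) → ℂ,
        DifferentiableOn ℂ G (Dom (An I) (fun j z => w j (Real.log ‖z‖)) R) →
        (∀ p ∈ Dom (An I) (fun j z => w j (Real.log ‖z‖)) R, ‖G p‖ ≤ 1) →
        (∀ p ∈ Dom (An I) (fun j z => w j (Real.log ‖z‖)) R, δ ≤ ∑ i, ‖f i p.1‖ ^ 2 + ‖G p‖ ^ 2) →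
      Sol C (Dom (An I) (fun j z => w j (Real.log ‖z‖)) R) (fun i p => f i p.1) G := by
  obtain ⟨C, hC⟩ := strip N δ hδ
  refine ⟨C, ?_⟩
  intro n I w R hI hIc hIu hw hR hRc f hf hfb G hG hGb hlow
  set D := Dom (An I) (fun j z => w j (Real.log ‖z‖)) R with hD
  set D' := Dom (St I) (fun j ζ => w j ζ.re) R with hD'
  have hlogexp : ∀ ζ : ℂ, Real.log ‖Complex.exp ζ‖ = ζ.re := by
    intro ζ; rw [Complex.norm_exp, Real.log_exp]
  have hE : ∀ p ∈ D', (Complex.exp p.1, p.2) ∈ D := by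
    rintro p ⟨h1, h2⟩
    refine ⟨⟨Complex.exp_ne_zero _, ?_⟩, ?_⟩
    · rw [hlogexp]; exact h1
    · simp only [hlogexp]; exact h2
  have hLog : ∀ p : ℂ × (Fin n → ℂ), p ∈ D ↔ p.1 ≠ 0 ∧ (Complex.log p.1, p.2) ∈ D' := by
    intro p
    constructor
    · rintro ⟨⟨h0, h1⟩, h2⟩
      refine ⟨h0, ?_, ?_⟩
      · change (Complex.log p.1).re ∈ I
        rw [Complex.log_re]; exact h1
      · simp only [Complex.log_re]; exact h2
    · rintro ⟨h0, h1, h2⟩
      have h1' : (Complex.log p.1).re ∈ I := h1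
      rw [Complex.log_re] at h1'
      simp only [Complex.log_re] at h2
      exact ⟨⟨h0, h1'⟩, h2⟩
  have hExpd : Differentiable ℂ (fun p : ℂ × (Fin n → ℂ) => (Complex.exp p.1, p.2)) := by
    fun_prop
  have hsol := hC n I w R hI hIc hIu hw hR hRc (fun i ζ => f i (Complex.exp ζ)) (fun i => by
      refine (hf i).comp Complex.differentiable_exp.differentiableOn ?_
      intro ζ hζ
      exact ⟨Complex.exp_ne_zero _, by rw [hlogexp]; exact hζ⟩)
    (fun i ζ hζ => hfb i _ ⟨Complex.exp_ne_zero _, by rw [hlogexp]; exact hζ⟩)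
    (fun p => G (Complex.exp p.1, p.2)) (hG.comp hExpd.differentiableOn hE)
    (fun p hp => hGb _ (hE p hp)) (fun p hp => hlow _ (hE p hp))
  have hper : Complex.exp (2 * Real.pi * Complex.I) = 1 := Complex.exp_two_pi_mul_I
  have hDo : IsOpen D' := dom_open (St_open hI)
    (fun j => ((hw j).continuousOn hI).comp Complex.continuous_re.continuousOn (fun _ h => h)) hR
  have hτ : ∀ p ∈ D', tr (2 * Real.pi * Complex.I) p ∈ D' := by
    rintro p ⟨h1, h2⟩
    have hre : (p.1 + 2 * Real.pi * Complex.I).re = p.1.re := by simp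
    refine ⟨?_, ?_⟩
    · change (p.1 + 2 * Real.pi * Complex.I).re ∈ I
      rw [hre]; exact h1
    · simp only [tr, hre]; exact h2
  have hτ' : ∀ p ∈ D', tr (-(2 * Real.pi * Complex.I)) p ∈ D' := by
    rintro p ⟨h1, h2⟩
    have hre : (p.1 + -(2 * Real.pi * Complex.I)).re = p.1.re := by simp
    refine ⟨?_, ?_⟩
    · change (p.1 + -(2 * Real.pi * Complex.I)).re ∈ I
      rw [hre]; exact h1
    · simp only [tr, hre]; exact h2
  obtain ⟨g, g₀, g1, g2, g3, g4, g5, g6, g7⟩ := avg hDo hτ (fun i p _ => by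
    simp only [tr, Complex.exp_add, hper, mul_one]) (fun p _ => by
    simp only [tr, Complex.exp_add, hper, mul_one]) hsol
  have hDeq : D = {p : ℂ × (Fin n → ℂ) | p.1 ≠ 0 ∧ (Complex.log p.1, p.2) ∈ D'} := by
    ext p; exact hLog p
  refine ⟨fun i p => g i (Complex.log p.1, p.2), fun p => g₀ (Complex.log p.1, p.2), ?_, ?_, ?_,
    ?_, ?_⟩
  · intro i
    rw [hDeq]
    exact desc hDo hτ hτ' (g1 i) (g5 i)
  · rw [hDeq]
    exact desc hDo hτ hτ' g2 g6
  · intro i p hp
    exact g3 i _ ((hLog p).1 hp).2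
  · intro p hp
    exact g4 _ ((hLog p).1 hp).2
  · intro p hp
    obtain ⟨h0, h1⟩ := (hLog p).1 hp
    have h2 := g7 _ h1
    simp only [Complex.exp_log h0] at h2
    exact h2

/-- **The corona theorem over discs**, with radial functions which are convex in `log |z|`. -/
theorem disc (N : ℕ) (δ : ℝ) (hδ : 0 < δ) : ∃ C : ℝ,
    ∀ (n : ℕ) (b : ℝ) (v : Fin n → ℝ → ℝ) (R : Set (Fin n → ℝ)), 0 < b →
      (∀ j, ContinuousOn (v j) (Ico 0 b)) → (∀ j, ConvexOn ℝ {t | Real.exp t < b} (fun t => v j (Real.exp t))) →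
      IsOpen R → (∀ x ∈ R, ∀ y : Fin n → ℝ, (∀ j, 0 ≤ y j ∧ y j ≤ x j) → y ∈ R) →
      ∀ f : Fin N → ℂ → ℂ, (∀ i, DifferentiableOn ℂ (f i) (ball 0 b)) →
        (∀ i, ∀ z ∈ ball (0 : ℂ) b, ‖f i z‖ ≤ 1) →
      ∀ G : ℂ × (Fin n → ℂ) → ℂ,
        DifferentiableOn ℂ G (Dom (ball 0 b) (fun j z => v j ‖z‖) R) →
        (∀ p ∈ Dom (ball 0 b) (fun j z => v j ‖z‖) R, ‖G p‖ ≤ 1) →
        (∀ p ∈ Dom (ball 0 b) (fun j z => v j ‖z‖) R, δ ≤ ∑ i, ‖f i p.1‖ ^ 2 + ‖G p‖ ^ 2) →
      Sol C (Dom (ball 0 b) (fun j z => v j ‖z‖) R) (fun i p => f i p.1) G := by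
  obtain ⟨C, hC⟩ := annulus N δ hδ
  refine ⟨max C 0, ?_⟩
  intro n b v R hb hv hvc hR hRc f hf hfb G hG hGb hlow
  set D := Dom (ball (0 : ℂ) b) (fun j z => v j ‖z‖) R with hD
  set I : Set ℝ := {t | Real.exp t < b} with hI
  set D' := Dom (An I) (fun j z => v j (Real.exp (Real.log ‖z‖))) R with hD'
  have hDo : IsOpen D := by
    refine dom_open isOpen_ball (fun j => ?_) hR
    refine (hv j).comp continuous_norm.continuousOn ?_
    intro z hz
    rw [mem_ball_zero_iff] at hz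
    exact ⟨norm_nonneg _, hz⟩
  have hAn : ∀ z : ℂ, z ∈ An I ↔ z ≠ 0 ∧ z ∈ ball (0 : ℂ) b := by
    intro z
    constructor
    · rintro ⟨h0, h1⟩
      have h1' : Real.exp (Real.log ‖z‖) < b := h1
      rw [Real.exp_log (norm_pos_iff.2 h0)] at h1'
      exact ⟨h0, mem_ball_zero_iff.2 h1'⟩
    · rintro ⟨h0, h1⟩
      refine ⟨h0, ?_⟩
      change Real.exp (Real.log ‖z‖) < b
      rw [Real.exp_log (norm_pos_iff.2 h0)]
      exact mem_ball_zero_iff.1 h1
  have hDD : D' = D ∩ {p | p.1 ≠ 0} := by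
    ext p
    constructor
    · rintro ⟨h1, h2⟩
      obtain ⟨h3, h4⟩ := (hAn _).1 h1
      refine ⟨⟨h4, ?_⟩, h3⟩
      simp only [Real.exp_log (norm_pos_iff.2 h3)] at h2
      exact h2
    · rintro ⟨⟨h1, h2⟩, h3⟩
      have h3' : p.1 ≠ 0 := h3
      refine ⟨(hAn _).2 ⟨h3, h1⟩, ?_⟩
      simp only [Real.exp_log (norm_pos_iff.2 h3')]
      exact h2
  have hsub : D' ⊆ D := by rw [hDD]; exact inter_subset_left
  have hAsub : An I ⊆ ball (0 : ℂ) b := fun z hz => ((hAn z).1 hz).2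
  obtain ⟨g, g₀, g1, g2, g3, g4, g5⟩ := hC n I (fun j t => v j (Real.exp t)) R
    (isOpen_lt Real.continuous_exp continuous_const)
    (by
      rcases Nat.eq_zero_or_pos n with hn | hn
      · intro x hx y hy a c ha hc hac
        have hx' : Real.exp x < b := hx
        have hy' : Real.exp y < b := hy
        have := convexOn_exp.2 (mem_univ x) (mem_univ y) ha hc hac
        change Real.exp (a • x + c • y) < b
        refine this.trans_lt ?_
        simp only [smul_eq_mul]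
        rcases eq_or_lt_of_le ha with h | h
        · rw [← h, zero_add] at hac
          rw [← h, hac]; linarith
        · have h1 : a * Real.exp x < a * b := by gcongr
          have h2 : c * Real.exp y ≤ c * b := by gcongr
          have h3 : a * b + c * b = b := by rw [← add_mul, hac, one_mul]
          linarith
      · exact (hvc ⟨0, hn⟩).1)
    (by
      intro h
      have : Real.log (b + 1) ∈ I := by rw [h]; trivial
      have h2 : Real.exp (Real.log (b + 1)) < b := this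
      rw [Real.exp_log (by linarith)] at h2
      linarith)
    hvc hR hRc f (fun i => (hf i).mono hAsub) (fun i z hz => hfb i z (hAsub hz)) G
    (hG.mono hsub) (fun p hp => hGb p (hsub hp)) (fun p hp => hlow p (hsub hp))
  have hfill : ∀ u : ℂ × (Fin n → ℂ) → ℂ, DifferentiableOn ℂ u D' → (∀ p ∈ D', ‖u p‖ ≤ C) →
      ∃ v : ℂ × (Fin n → ℂ) → ℂ, DifferentiableOn ℂ v D ∧ (∀ p ∈ D, ‖v p‖ ≤ max C 0) ∧
      ∀ p ∈ D, p.1 ≠ 0 → v p = u p := by
    intro u hu hub
    refine fill hDo (le_max_right _ _) u (by rw [← hDD]; exact hu) ?_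
    intro p hp hp0
    refine (hub p ?_).trans (le_max_left _ _)
    rw [hDD]; exact ⟨hp, hp0⟩
  choose e e1 e2 e3 using fun i => hfill (g i) (g1 i) (g3 i)
  obtain ⟨e₀, f1, f2, f3⟩ := hfill g₀ g2 g4
  refine ⟨e, e₀, e1, f1, e2, f2, ?_⟩
  intro p hp
  by_cases hp0 : p.1 = 0
  · -- by continuity
    obtain ⟨z, y⟩ := p
    simp only at hp0
    subst hp0
    have hsl : {z : ℂ | (z, y) ∈ D} ∈ 𝓝 (0 : ℂ) := (hDo.preimage (by fun_prop : Continuous
      fun z : ℂ => ((z, y) : ℂ × (Fin n → ℂ)))).mem_nhds hp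
    have hc : ∀ u : ℂ × (Fin n → ℂ) → ℂ, DifferentiableOn ℂ u D →
        Tendsto (fun z : ℂ => u (z, y)) (𝓝[≠] 0) (𝓝 (u (0, y))) := by
      intro u hu
      have h1 : ContinuousAt u (0, y) := (hu.differentiableAt (hDo.mem_nhds hp)).continuousAt
      have h2 : ContinuousAt (fun z : ℂ => ((z, y) : ℂ × (Fin n → ℂ))) 0 := by fun_prop
      exact (ContinuousAt.comp (f := fun z : ℂ => ((z, y) : ℂ × (Fin n → ℂ))) h1 h2).tendsto.mono_left
        nhdsWithin_le_nhds
    have hf0 : ∀ i, Tendsto (fun z : ℂ => f i z) (𝓝[≠] 0) (𝓝 (f i 0)) := by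
      intro i
      have h1 : ContinuousAt (f i) 0 :=
        ((hf i).differentiableAt (isOpen_ball.mem_nhds hp.1)).continuousAt
      exact h1.tendsto.mono_left nhdsWithin_le_nhds
    have h1 : Tendsto (fun z : ℂ => ∑ i, f i z * e i (z, y) + G (z, y) * e₀ (z, y)) (𝓝[≠] 0)
        (𝓝 (∑ i, f i 0 * e i (0, y) + G (0, y) * e₀ (0, y))) := by
      refine Tendsto.add (tendsto_finsetSum _ fun i _ => ?_) ?_
      · exact (hf0 i).mul (hc _ (e1 i))
      · exact (hc _ hG).mul (hc _ f1)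
    refine tendsto_nhds_unique h1 (tendsto_const_nhds.congr' ?_)
    filter_upwards [self_mem_nhdsWithin, mem_nhdsWithin_of_mem_nhds hsl] with z hz hz2
    have h3 : ((z, y) : ℂ × (Fin n → ℂ)) ∈ D' := by rw [hDD]; exact ⟨hz2, hz⟩
    have h4 := g5 _ h3
    rw [← h4]
    simp only
    rw [f3 (z, y) hz2 hz]
    congr 1
    exact Finset.sum_congr rfl fun i _ => by rw [e3 i (z, y) hz2 hz]
  · have h3 : p ∈ D' := by rw [hDD]; exact ⟨hp, hp0⟩
    have h4 := g5 _ h3
    rw [← h4, f3 p hp hp0]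
    congr 1
    exact Finset.sum_congr rfl fun i _ => by rw [e3 i p hp hp0]

end Pool.Agent.X27.Cor
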