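import Mathlib
import Pool.Agent.X27.Cor.Reinh

/-!
Corona theorem on bounded logarithmically convex Reinhardt domains of `ℂ²` which are complete in the
second variable.
-/

set_option autoImplicit false

open Set Filter Topology Metric

namespace Pool.Agent.X27.Cor

open Pool.Agent.H788R3.Cor2 (Dom dom_open)

/-- rotation invariant, complete in the second variable -/
def FRein (D : Set (ℂ × ℂ)) : Prop :=
  ∀ p ∈ D, ∀ z y : ℂ, ‖z‖ = ‖p.1‖ → ‖y‖ ≤ ‖p.2‖ → (z, y) ∈ D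

/-- logarithmically convex -/
def LogConv (D : Set (ℂ × ℂ)) : Prop :=
  ∀ p ∈ D, ∀ q ∈ D, p.1 ≠ 0 → q.1 ≠ 0 → ∀ a b : ℝ, 0 ≤ a → 0 ≤ b → a + b = 1 →
    (((‖p.1‖ ^ a * ‖q.1‖ ^ b : ℝ) : ℂ), ((‖p.2‖ ^ a * ‖q.2‖ ^ b : ℝ) : ℂ)) ∈ D

theorem rein_repr {D : Set (ℂ × ℂ)} (hD : IsOpen D) (hR : FRein D) (hL : LogConv D)
    {M : ℝ} (hM : ∀ p ∈ D, ‖p.1‖ ≤ M ∧ ‖p.2‖ ≤ M) :
    ∃ (I : Set ℝ) (w : ℝ → ℝ), IsOpen I ∧ Convex ℝ I ∧ I ≠ univ ∧ ConvexOn ℝ I w ∧
      ∀ z y : ℂ, z ≠ 0 → ((z, y) ∈ D ↔ Real.log ‖z‖ ∈ I ∧ Real.exp (w (Real.log ‖z‖)) * ‖y‖ < 1) := by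
  set I : Set ℝ := {t | ((Real.exp t : ℂ), (0 : ℂ)) ∈ D} with hI
  set S : ℝ → Set ℝ := fun t => {s | 0 ≤ s ∧ ((Real.exp t : ℂ), (s : ℂ)) ∈ D} with hS
  set ρ : ℝ → ℝ := fun t => sSup (S t) with hρ
  have hexp : ∀ t : ℝ, ‖(Real.exp t : ℂ)‖ = Real.exp t := fun t => by
    rw [Complex.norm_real, Real.norm_of_nonneg (Real.exp_pos t).le]
  have hexp0 : ∀ t : ℝ, (Real.exp t : ℂ) ≠ 0 := fun t => by
    rw [← norm_pos_iff, hexp]; exact Real.exp_pos t
  have hSb : ∀ t, BddAbove (S t) := by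
    intro t
    refine ⟨M, ?_⟩
    rintro s ⟨h0, h1⟩
    have := (hM _ h1).2
    rwa [Complex.norm_real, Real.norm_of_nonneg h0] at this
  have hIo : IsOpen I := by
    have hc : Continuous (fun t : ℝ => ((Real.exp t : ℂ), (0 : ℂ))) := by fun_prop
    exact hD.preimage hc
  have hSn : ∀ t ∈ I, (0 : ℝ) ∈ S t := fun t ht => ⟨le_rfl, by simpa [hI] using ht⟩
  -- openness in the radius
  have hup : ∀ t s : ℝ, s ∈ S t → ∃ s', s < s' ∧ s' ∈ S t := by
    rintro t s ⟨h0, h1⟩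
    have hc : Continuous (fun s : ℝ => ((Real.exp t : ℂ), (s : ℂ))) := by fun_prop
    have h2 : {s : ℝ | ((Real.exp t : ℂ), (s : ℂ)) ∈ D} ∈ 𝓝 s := (hD.preimage hc).mem_nhds h1
    obtain ⟨ε, hε, hb⟩ := Metric.mem_nhds_iff.1 h2
    refine ⟨s + ε / 2, by linarith, by linarith, ?_⟩
    apply hb
    rw [mem_ball, Real.dist_eq]
    rw [add_sub_cancel_left, abs_of_pos (by linarith)]
    linarith
  have hlt : ∀ t s : ℝ, s ∈ S t → s < ρ t := by
    intro t s hs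
    obtain ⟨s', h1, h2⟩ := hup t s hs
    exact h1.trans_le (le_csSup (hSb t) h2)
  have hρ0 : ∀ t ∈ I, 0 < ρ t := fun t ht => hlt t 0 (hSn t ht)
  have hmem : ∀ t ∈ I, ∀ y : ℂ, (((Real.exp t : ℂ), y) ∈ D ↔ ‖y‖ < ρ t) := by
    intro t ht y
    constructor
    · intro h
      refine hlt t ‖y‖ ⟨norm_nonneg _, ?_⟩
      exact hR _ h _ _ rfl (by simp)
    · intro h
      obtain ⟨s, hs, hys⟩ := exists_lt_of_lt_csSup ⟨0, hSn t ht⟩ h
      refine hR _ hs.2 _ _ rfl ?_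
      simp only
      rw [Complex.norm_real, Real.norm_of_nonneg hs.1]
      exact hys.le
  have hIc : Convex ℝ I := by
    intro x hx y hy a b ha hb hab
    have h1 := hL _ hx _ hy (hexp0 x) (hexp0 y) a b ha hb hab
    have h2 := hR _ h1 ((Real.exp (a • x + b • y) : ℂ)) 0 ?_ (by rw [norm_zero]; exact norm_nonneg _)
    · exact h2
    · simp only
      rw [hexp, hexp, hexp, Complex.norm_real, Real.norm_of_nonneg (by positivity),
        ← Real.exp_mul, ← Real.exp_mul, ← Real.exp_add]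
      congr 1
      simp only [smul_eq_mul]
      ring
  refine ⟨I, fun t => -Real.log (ρ t), hIo, hIc, ?_, ⟨hIc, ?_⟩, ?_⟩
  · intro h
    have h1 : Real.log (max M 0 + 1) ∈ I := by rw [h]; trivial
    have h2 := (hM _ h1).1
    simp only at h2
    rw [hexp, Real.exp_log (by positivity)] at h2
    have := le_max_left M 0
    linarith
  · intro x hx y hy a b ha hb hab
    have hxy := hIc hx hy ha hb hab
    have key : ρ x ^ a * ρ y ^ b ≤ ρ (a • x + b • y) := by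
      have h1 : ∀ c : ℝ, 0 < c → c < 1 → c * (ρ x ^ a * ρ y ^ b) ≤ ρ (a • x + b • y) := by
        intro c hc0 hc1
        have hx1 : ((Real.exp x : ℂ), ((c * ρ x : ℝ) : ℂ)) ∈ D := by
          rw [hmem x hx, Complex.norm_real, Real.norm_of_nonneg (by have := hρ0 x hx; positivity)]
          nlinarith [hρ0 x hx]
        have hy1 : ((Real.exp y : ℂ), ((c * ρ y : ℝ) : ℂ)) ∈ D := by
          rw [hmem y hy, Complex.norm_real, Real.norm_of_nonneg (by have := hρ0 y hy; positivity)]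
          nlinarith [hρ0 y hy]
        have hrx := hρ0 x hx
        have hry := hρ0 y hy
        have h2 := hL _ hx1 _ hy1 (hexp0 x) (hexp0 y) a b ha hb hab
        have h3 := hR _ h2 ((Real.exp (a • x + b • y) : ℂ)) ((c * (ρ x ^ a * ρ y ^ b) : ℝ) : ℂ) ?_ ?_
        · rw [hmem _ hxy, Complex.norm_real, Real.norm_of_nonneg (by positivity)] at h3
          exact h3.le
        · simp only
          rw [hexp, hexp, hexp, Complex.norm_real, Real.norm_of_nonneg (by positivity),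
            ← Real.exp_mul, ← Real.exp_mul, ← Real.exp_add]
          congr 1
          simp only [smul_eq_mul]
          ring
        · simp only
          rw [Complex.norm_real, Complex.norm_real, Complex.norm_real, Complex.norm_real,
            Real.norm_of_nonneg (by positivity), Real.norm_of_nonneg (by positivity),
            Real.norm_of_nonneg (by positivity), Real.norm_of_nonneg (by positivity),
            Real.mul_rpow hc0.le hrx.le, Real.mul_rpow hc0.le hry.le]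
          have h4 : c ^ a * c ^ b = c := by
            rw [← Real.rpow_add hc0, hab, Real.rpow_one]
          have h5 : c ^ a * ρ x ^ a * (c ^ b * ρ y ^ b) = (c ^ a * c ^ b) * (ρ x ^ a * ρ y ^ b) := by
            ring
          rw [h5, h4]
      have h6 : Tendsto (fun c : ℝ => c * (ρ x ^ a * ρ y ^ b)) (𝓝[<] 1) (𝓝 (1 * (ρ x ^ a * ρ y ^ b))) :=
        ((continuous_id.mul continuous_const).tendsto 1).mono_left nhdsWithin_le_nhds
      rw [one_mul] at h6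
      refine le_of_tendsto h6 ?_
      have h7 : ∀ᶠ c : ℝ in 𝓝[<] 1, 0 < c :=
        mem_nhdsWithin_of_mem_nhds (Ioi_mem_nhds one_pos)
      filter_upwards [h7, self_mem_nhdsWithin] with c h8 h9
      exact h1 c h8 h9
    have hrx := hρ0 x hx
    have hry := hρ0 y hy
    have h2 := Real.log_le_log (by positivity) key
    rw [Real.log_mul (by positivity) (by positivity), Real.log_rpow hrx, Real.log_rpow hry] at h2
    simp only [smul_eq_mul] at h2 ⊢
    linarith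
  · intro z y hz
    have hzp : 0 < ‖z‖ := norm_pos_iff.2 hz
    have h1 : (z, y) ∈ D ↔ ((Real.exp (Real.log ‖z‖) : ℂ), y) ∈ D := by
      constructor
      · intro h
        refine hR _ h _ _ ?_ le_rfl
        simp only
        rw [hexp, Real.exp_log hzp]
      · intro h
        refine hR _ h _ _ ?_ le_rfl
        simp only
        rw [hexp, Real.exp_log hzp]
    rw [h1]
    constructor
    · intro h
      have h2 : Real.log ‖z‖ ∈ I := hR _ h _ _ rfl (by simp)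
      refine ⟨h2, ?_⟩
      have h3 := (hmem _ h2 y).1 h
      have h4 := hρ0 _ h2
      rw [Real.exp_neg, Real.exp_log h4, inv_mul_lt_iff₀ h4, mul_one]
      exact h3
    · rintro ⟨h2, h3⟩
      have h4 := hρ0 _ h2
      rw [Real.exp_neg, Real.exp_log h4, inv_mul_lt_iff₀ h4, mul_one] at h3
      exact (hmem _ h2 y).2 h3

/-- **The corona theorem on Reinhardt domains of `ℂ²`.** -/
theorem rein2 (N : ℕ) (δ : ℝ) (hδ : 0 < δ) : ∃ C : ℝ,
    ∀ D : Set (ℂ × ℂ), IsOpen D → FRein D → LogConv D → (∃ M : ℝ, ∀ p ∈ D, ‖p.1‖ ≤ M ∧ ‖p.2‖ ≤ M) →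
      ∀ (f : Fin N → ℂ → ℂ) (G : ℂ × ℂ → ℂ), (∀ i, DifferentiableOn ℂ (f i) (Prod.fst '' D)) →
        (∀ i, ∀ z ∈ Prod.fst '' D, ‖f i z‖ ≤ 1) → DifferentiableOn ℂ G D → (∀ p ∈ D, ‖G p‖ ≤ 1) →
        (∀ p ∈ D, δ ≤ ∑ i, ‖f i p.1‖ ^ 2 + ‖G p‖ ^ 2) →
        ∃ (g : Fin N → ℂ × ℂ → ℂ) (g₀ : ℂ × ℂ → ℂ),
          (∀ i, DifferentiableOn ℂ (g i) D) ∧ DifferentiableOn ℂ g₀ D ∧
          (∀ i, ∀ p ∈ D, ‖g i p‖ ≤ C) ∧ (∀ p ∈ D, ‖g₀ p‖ ≤ C) ∧
          ∀ p ∈ D, ∑ i, f i p.1 * g i p + G p * g₀ p = 1 := by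
  obtain ⟨C, hC⟩ := annulus N δ hδ
  refine ⟨max C 0, ?_⟩
  rintro D hD hR hL ⟨M, hM⟩ f G hf hfb hG hGb hlow
  obtain ⟨I, w, hIo, hIc, hIu, hw, hI⟩ := rein_repr hD hR hL hM
  set R : Set (Fin 1 → ℝ) := {x | x 0 < 1} with hRdef
  set D' := Dom (An I) (fun (_ : Fin 1) z => w (Real.log ‖z‖)) R with hD'
  set D1 : Set (ℂ × (Fin 1 → ℂ)) := {p | (p.1, p.2 0) ∈ D} with hD1
  have hD1o : IsOpen D1 := hD.preimage (by fun_prop)
  have hfst : IsOpen (Prod.fst '' D) := isOpenMap_fst D hD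
  have hDD : D' = D1 ∩ {p | p.1 ≠ 0} := by
    ext p
    constructor
    · rintro ⟨⟨h0, h1⟩, h2⟩
      exact ⟨(hI p.1 (p.2 0) h0).2 ⟨h1, h2⟩, h0⟩
    · rintro ⟨h1, h0⟩
      obtain ⟨h2, h3⟩ := (hI p.1 (p.2 0) h0).1 h1
      exact ⟨⟨h0, h2⟩, h3⟩
  have hsub : D' ⊆ D1 := by rw [hDD]; exact inter_subset_left
  have hAsub : An I ⊆ Prod.fst '' D := by
    rintro z ⟨h0, h1⟩
    exact ⟨(z, 0), (hI z 0 h0).2 ⟨h1, by simp⟩, rfl⟩
  set G1 : ℂ × (Fin 1 → ℂ) → ℂ := fun p => G (p.1, p.2 0) with hG1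
  have hGd : DifferentiableOn ℂ G1 D1 := by
    have h1 : Differentiable ℂ (fun p : ℂ × (Fin 1 → ℂ) => (p.1, p.2 0)) := by fun_prop
    exact hG.comp h1.differentiableOn (fun p hp => hp)
  obtain ⟨g, g₀, g1, g2, g3, g4, g5⟩ := hC 1 I (fun _ => w) R hIo hIc hIu (fun _ => hw)
    (isOpen_lt (continuous_apply 0) continuous_const)
    (fun x hx y hy => lt_of_le_of_lt (hy 0).2 hx) f (fun i => (hf i).mono hAsub)
    (fun i z hz => hfb i z (hAsub hz)) G1 (hGd.mono hsub) (fun p hp => hGb _ (hsub hp))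
    (fun p hp => hlow _ (hsub hp))
  have hfill : ∀ u : ℂ × (Fin 1 → ℂ) → ℂ, DifferentiableOn ℂ u D' → (∀ p ∈ D', ‖u p‖ ≤ C) →
      ∃ v : ℂ × (Fin 1 → ℂ) → ℂ, DifferentiableOn ℂ v D1 ∧ (∀ p ∈ D1, ‖v p‖ ≤ max C 0) ∧
      ∀ p ∈ D1, p.1 ≠ 0 → v p = u p := by
    intro u hu hub
    refine fill hD1o (le_max_right _ _) u (by rw [← hDD]; exact hu) ?_
    intro p hp hp0
    refine (hub p ?_).trans (le_max_left _ _)
    rw [hDD]; exact ⟨hp, hp0⟩
  choose e e1 e2 e3 using fun i => hfill (g i) (g1 i) (g3 i)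
  obtain ⟨e₀, f1, f2, f3⟩ := hfill g₀ g2 g4
  have hid : ∀ p ∈ D1, ∑ i, f i p.1 * e i p + G1 p * e₀ p = 1 := by
    intro p hp
    by_cases hp0 : p.1 = 0
    · obtain ⟨z, y⟩ := p
      simp only at hp0
      subst hp0
      have hsl : {z : ℂ | (z, y) ∈ D1} ∈ 𝓝 (0 : ℂ) := (hD1o.preimage (by fun_prop : Continuous
        fun z : ℂ => ((z, y) : ℂ × (Fin 1 → ℂ)))).mem_nhds hp
      have hc : ∀ u : ℂ × (Fin 1 → ℂ) → ℂ, DifferentiableOn ℂ u D1 →
          Tendsto (fun z : ℂ => u (z, y)) (𝓝[≠] 0) (𝓝 (u (0, y))) := by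
        intro u hu
        have h1 : ContinuousAt u (0, y) := (hu.differentiableAt (hD1o.mem_nhds hp)).continuousAt
        have h2 : ContinuousAt (fun z : ℂ => ((z, y) : ℂ × (Fin 1 → ℂ))) 0 := by fun_prop
        exact (ContinuousAt.comp (f := fun z : ℂ => ((z, y) : ℂ × (Fin 1 → ℂ))) h1 h2).tendsto.mono_left
          nhdsWithin_le_nhds
      have hf0 : ∀ i, Tendsto (fun z : ℂ => f i z) (𝓝[≠] 0) (𝓝 (f i 0)) := by
        intro i
        have h1 : ContinuousAt (f i) 0 :=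
          ((hf i).differentiableAt (hfst.mem_nhds ⟨_, hp, rfl⟩)).continuousAt
        exact h1.tendsto.mono_left nhdsWithin_le_nhds
      have h1 : Tendsto (fun z : ℂ => ∑ i, f i z * e i (z, y) + G1 (z, y) * e₀ (z, y)) (𝓝[≠] 0)
          (𝓝 (∑ i, f i 0 * e i (0, y) + G1 (0, y) * e₀ (0, y))) := by
        refine Tendsto.add (tendsto_finsetSum _ fun i _ => ?_) ?_
        · exact (hf0 i).mul (hc _ (e1 i))
        · exact (hc _ hGd).mul (hc _ f1)
      refine tendsto_nhds_unique h1 (tendsto_const_nhds.congr' ?_)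
      filter_upwards [self_mem_nhdsWithin, mem_nhdsWithin_of_mem_nhds hsl] with z hz hz2
      have h3 : ((z, y) : ℂ × (Fin 1 → ℂ)) ∈ D' := by rw [hDD]; exact ⟨hz2, hz⟩
      have h4 := g5 _ h3
      rw [← h4]
      simp only
      rw [f3 (z, y) hz2 hz]
      congr 1
      exact Finset.sum_congr rfl fun i _ => by rw [e3 i (z, y) hz2 hz]
    · have h3 : p ∈ D' := by rw [hDD]; exact ⟨hp, hp0⟩
      have h4 := g5 _ h3
      rw [← h4, f3 p hp hp0]
      congr 1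
      exact Finset.sum_congr rfl fun i _ => by rw [e3 i p hp hp0]
  have hJ : Differentiable ℂ (fun p : ℂ × ℂ => ((p.1, fun _ : Fin 1 => p.2) : ℂ × (Fin 1 → ℂ))) := by
    fun_prop
  have hJm : MapsTo (fun p : ℂ × ℂ => ((p.1, fun _ : Fin 1 => p.2) : ℂ × (Fin 1 → ℂ))) D D1 :=
    fun p hp => hp
  exact ⟨fun i p => e i (p.1, fun _ => p.2), fun p => e₀ (p.1, fun _ => p.2),
    fun i => (e1 i).comp hJ.differentiableOn hJm, f1.comp hJ.differentiableOn hJm,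
    fun i p hp => e2 i _ (hJm hp), fun p hp => f2 _ (hJm hp), fun p hp => hid _ (hJm hp)⟩

end Pool.Agent.X27.Cor
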