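import Mathlib
import Pool.Agent.X27.Cor.Glob
import Pool.Agent.W732.Cor.All

/-!
Corona data that extend to larger domains touching the ball, and one arbitrary function.
-/

set_option autoImplicit false

open Metric Set Filter Topology

namespace Pool.Agent.X27.Cor

open Pool.Agent.W732.Cor (mv S_mv S_ball)
open Pool.Agent.TH310.Cor

variable {m : ℕ}

theorem osc {p q : V m} (hp : ‖p‖ = 1) (hq : ‖q‖ = 1) (hpq : (inner ℂ p q : ℂ) = 0)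
    {r κ ε : ℝ} (hr : 0 < r) (hκ : 0 < κ) (hε : 0 < ε) : ∃ κ' ρ : ℝ, 0 < κ' ∧ 0 < ρ ∧
      ∀ h : V m → ℂ, DifferentiableOn ℂ h (Ell p r κ) → (∀ z ∈ Ell p r κ, ‖h z‖ ≤ 1) →
      ∀ c ∈ ball (0 : ℂ) 1, ‖1 - c‖ < κ' → MapsTo (mv p c) (ball q ρ) (Ell p r κ) ∧
        ∀ z ∈ ball q ρ, ∀ w ∈ ball q ρ, ‖h (mv p c z) - h (mv p c w)‖ ≤ ε := by
  obtain ⟨κ', ρ, hκ', hρ, -, h1⟩ := mv_maps hp hq hpq hr hκ
  refine ⟨κ', min ρ (ρ * ε / 4), hκ', by positivity, ?_⟩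
  intro h hh hb c hc hcκ
  obtain ⟨h2, h3⟩ := h1 c hc hcκ
  have hsub : ball q (min ρ (ρ * ε / 4)) ⊆ ball q ρ := ball_subset_ball (min_le_left _ _)
  refine ⟨h2.mono_left hsub, ?_⟩
  have h4 : DifferentiableOn ℂ (fun z => h (mv p c z)) (ball q ρ) := hh.comp h3 h2
  have h5 : MapsTo (fun z => h (mv p c z)) (ball q ρ) (closedBall (h (mv p c q)) 2) := by
    intro z hz
    rw [mem_closedBall, dist_eq_norm]
    refine (norm_sub_le _ _).trans ?_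
    have h6 := hb _ (h2 hz)
    have h7 := hb _ (h2 (mem_ball_self hρ))
    linarith
  have h8 : ∀ z ∈ ball q (min ρ (ρ * ε / 4)), ‖h (mv p c z) - h (mv p c q)‖ ≤ ε / 2 := by
    intro z hz
    have h9 := Complex.dist_le_div_mul_dist_of_mapsTo_ball h4 h5 (hsub hz)
    rw [dist_eq_norm] at h9
    refine h9.trans ?_
    have h10 : dist z q ≤ ρ * ε / 4 := by
      rw [mem_ball] at hz
      exact hz.le.trans (min_le_right _ _)
    calc 2 / ρ * dist z q ≤ 2 / ρ * (ρ * ε / 4) := by gcongr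
      _ = ε / 2 := by field_simp; ring
  intro z hz w hw
  have h9 := h8 z hz
  have h10 := h8 w hw
  rw [norm_sub_rev] at h10
  have h11 := norm_add_le (h (mv p c z) - h (mv p c q)) (h (mv p c q) - h (mv p c w))
  rw [sub_add_sub_cancel] at h11
  linarith

theorem cell {N : ℕ} {U : Set (V m)} (hU : U.Nonempty) {Φ : Fin N → V m → ℂ}
    (hΦ : ∀ j, DifferentiableOn ℂ (Φ j) U) {δ ε : ℝ} (hε : 0 < ε) (hNε : 4 * (N + 1) * ε = δ)
    (hlow : ∀ z ∈ U, δ ≤ ∑ j, ‖Φ j z‖) (j₀ : Fin N)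
    (hosc : ∀ j, j ≠ j₀ → ∀ z ∈ U, ∀ w ∈ U, ‖Φ j z - Φ j w‖ ≤ ε) :
    ∃ g : Fin N → V m → ℂ, (∀ j, DifferentiableOn ℂ (g j) U) ∧
      (∀ j, ∀ z ∈ U, ‖g j z‖ ≤ 1 / ε) ∧ ∀ z ∈ U, ∑ j, Φ j z * g j z = 1 := by
  classical
  have hN0 : (0 : ℝ) ≤ N := Nat.cast_nonneg N
  obtain ⟨w, hw⟩ := hU
  have key : ∃ j, ∀ z ∈ U, ε ≤ ‖Φ j z‖ := by
    by_cases hex : ∃ j, j ≠ j₀ ∧ 2 * ε ≤ ‖Φ j w‖
    · obtain ⟨j, hj, hj2⟩ := hex
      refine ⟨j, fun z hz => ?_⟩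
      have h1 := hosc j hj z hz w hw
      have h2 := norm_sub_norm_le (Φ j w) (Φ j z)
      rw [norm_sub_rev] at h2
      linarith
    · push Not at hex
      refine ⟨j₀, fun z hz => ?_⟩
      have h1 := hlow _ hz
      rw [← Finset.add_sum_erase Finset.univ _ (Finset.mem_univ j₀)] at h1
      have h2 : ∀ j ∈ Finset.univ.erase j₀, ‖Φ j z‖ ≤ 3 * ε := by
        intro j hj
        have hj' := Finset.ne_of_mem_erase hj
        have h3 := hosc j hj' z hz w hw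
        have h4 := hex j hj'
        have h5 := norm_sub_norm_le (Φ j z) (Φ j w)
        linarith
      have h3 := Finset.sum_le_sum h2
      rw [Finset.sum_const, nsmul_eq_mul] at h3
      have h4 : ((Finset.univ.erase j₀).card : ℝ) ≤ N := by
        have h5 := Finset.card_erase_le (s := (Finset.univ : Finset (Fin N))) (a := j₀)
        rw [Finset.card_univ, Fintype.card_fin] at h5
        exact_mod_cast h5
      have h5 : ((Finset.univ.erase j₀).card : ℝ) * (3 * ε) ≤ N * (3 * ε) := by gcongr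
      nlinarith
  obtain ⟨j₁, hj₁⟩ := key
  have hne : ∀ z ∈ U, Φ j₁ z ≠ 0 := by
    intro z hz h0
    have h1 := hj₁ z hz
    rw [h0, norm_zero] at h1
    linarith
  refine ⟨fun j z => if j = j₁ then (Φ j₁ z)⁻¹ else 0, ?_, ?_, ?_⟩
  · intro j
    by_cases hj : j = j₁
    · simp only [if_pos hj]
      exact DifferentiableOn.inv (hΦ j₁) hne
    · simp only [if_neg hj]
      exact differentiableOn_const _
  · intro j z hz
    by_cases hj : j = j₁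
    · simp only [if_pos hj]
      rw [norm_inv, ← one_div]
      exact one_div_le_one_div_of_le hε (hj₁ z hz)
    · simp only [if_neg hj]
      rw [norm_zero]
      positivity
  · intro z hz
    simp only [mul_ite, mul_zero]
    rw [Finset.sum_ite_eq' Finset.univ j₁, if_pos (Finset.mem_univ _)]
    exact mul_inv_cancel₀ (hne z hz)

theorem near {N : ℕ} {p : V m} (hp : ‖p‖ = 1) (j₀ : Fin N) {r κ : ℝ} (hr : 0 < r) (hκ : 0 < κ)
    {I : Type} {F : I → Fin N → V m → ℂ} (hF : ∀ i j, HB (F i j)) {δ : ℝ} (hδ : 0 < δ)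
    (hlow : ∀ i, ∀ z ∈ ball (0 : V m) 1, δ ≤ ∑ j, ‖F i j z‖)
    (hext : ∀ i, ∀ j, j ≠ j₀ → ∃ h : V m → ℂ, DifferentiableOn ℂ h (Ell p r κ) ∧
      (∀ z ∈ Ell p r κ, ‖h z‖ ≤ 1) ∧ ∀ z ∈ ball (0 : V m) 1, ‖z - p‖ < r → F i j z = h z) :
    SolvL F p := by
  have hmv := Pool.Agent.W732.Cor.t_mv
  have hball := Pool.Agent.W732.Cor.t_ball
  obtain ⟨ε, hε⟩ : ∃ ε : ℝ, ε = δ / (4 * (N + 1)) := ⟨_, rfl⟩
  have hN0 : (0 : ℝ) ≤ N := Nat.cast_nonneg N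
  have hε0 : 0 < ε := by rw [hε]; positivity
  have hNε : 4 * (N + 1) * ε = δ := by rw [hε]; field_simp
  refine whit2 hmv hball hp hF hδ one_pos (fun i z hz => hlow i z hz.1) ?_
  intro q hq hpq
  obtain ⟨κ', ρ, hκ', hρ, hosc⟩ := osc hp hq hpq hr hκ hε0
  refine ⟨κ', hκ', 1 / ε, ρ, hρ, ?_⟩
  rintro ⟨i, c, hc, hcκ⟩
  have A := aut_mv hmv hp hc
  refine cell ?_ (fun j => ((hF i j).1.comp A.d1 A.m1).mono inter_subset_left) hε0 hNε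
    (fun z hz => hlow i _ (A.m1 hz.1)) j₀ ?_
  · obtain ⟨s, hs⟩ : ∃ s : ℝ, s = min ρ 1 := ⟨_, rfl⟩
    have hs0 : 0 < s := by rw [hs]; exact lt_min hρ one_pos
    have hsr : s ≤ ρ := by rw [hs]; exact min_le_left _ _
    have hs1 : s ≤ 1 := by rw [hs]; exact min_le_right _ _
    refine ⟨((1 - s / 2 : ℝ) : ℂ) • q, ?_, ?_⟩
    · rw [mem_ball_zero_iff, norm_smul, hq, Complex.norm_real,
        Real.norm_of_nonneg (by linarith)]
      linarith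
    · rw [mem_ball, dist_eq_norm]
      have h3 : ((1 - s / 2 : ℝ) : ℂ) • q - q = (-(s / 2 : ℝ) : ℂ) • q := by
        push_cast
        module
      rw [h3, norm_smul, hq, norm_neg, Complex.norm_real, Real.norm_of_nonneg (by linarith)]
      linarith
  · intro j hj z hz w hw
    obtain ⟨h, h1, h2, h3⟩ := hext i j hj
    obtain ⟨h4, h5⟩ := hosc h h1 h2 c hc hcκ
    have h6 := h3 _ (A.m1 hz.1) (h4 hz.2).1
    have h7 := h3 _ (A.m1 hw.1) (h4 hw.2).1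
    change ‖F i j (mv p c z) - F i j (mv p c w)‖ ≤ ε
    rw [h6, h7]
    exact h5 z hz.2 w hw.2

/-- the theorem with data extending near each boundary point, except one -/
theorem touch (m N : ℕ) (k : V m → Fin N) (r κ : V m → ℝ) (hr : ∀ p, 0 < r p)
    (hκ : ∀ p, 0 < κ p) (δ : ℝ) (hδ : 0 < δ) :
    ∃ C : ℝ, ∀ f : Fin N → V m → ℂ, (∀ j, DifferentiableOn ℂ (f j) (ball 0 1)) →
      (∀ j, ∀ z ∈ ball (0 : V m) 1, ‖f j z‖ ≤ 1) →
      (∀ z ∈ ball (0 : V m) 1, δ ≤ ∑ j, ‖f j z‖) →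
      (∀ p : V m, ‖p‖ = 1 → ∀ j, j ≠ k p → ∃ h : V m → ℂ,
        DifferentiableOn ℂ h (Ell p (r p) (κ p)) ∧ (∀ z ∈ Ell p (r p) (κ p), ‖h z‖ ≤ 1) ∧
        ∀ z ∈ ball (0 : V m) 1, ‖z - p‖ < r p → f j z = h z) →
      ∃ g : Fin N → V m → ℂ, (∀ j, DifferentiableOn ℂ (g j) (ball 0 1)) ∧
        (∀ j, ∀ z ∈ ball (0 : V m) 1, ‖g j z‖ ≤ C) ∧
        ∀ z ∈ ball (0 : V m) 1, ∑ j, f j z * g j z = 1 := by
  let I : Type := {f : Fin N → V m → ℂ // (∀ j, DifferentiableOn ℂ (f j) (ball 0 1)) ∧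
      (∀ j, ∀ z ∈ ball (0 : V m) 1, ‖f j z‖ ≤ 1) ∧
      (∀ z ∈ ball (0 : V m) 1, δ ≤ ∑ j, ‖f j z‖) ∧
      (∀ p : V m, ‖p‖ = 1 → ∀ j, j ≠ k p → ∃ h : V m → ℂ,
        DifferentiableOn ℂ h (Ell p (r p) (κ p)) ∧ (∀ z ∈ Ell p (r p) (κ p), ‖h z‖ ≤ 1) ∧
        ∀ z ∈ ball (0 : V m) 1, ‖z - p‖ < r p → f j z = h z)}
  have hF : ∀ (i : I) (j : Fin N), HB (i.1 j) := fun i j => ⟨i.2.1 j, i.2.2.1 j⟩
  obtain ⟨C, hC⟩ := glob (F := fun i : I => i.1) hF hδ (fun i => i.2.2.2.1)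
    (fun p hp => near hp (k p) (hr p) (hκ p) hF hδ (fun i => i.2.2.2.1)
      (fun i j hj => i.2.2.2.2 p hp j hj))
  exact ⟨C, fun f h1 h2 h3 h4 => hC ⟨f, h1, h2, h3, h4⟩⟩

/-- a tangent ball of radius `R > 1` contains the domain with `κ = 1 - 1 / R` -/
theorem tangent {p : V m} (hp : ‖p‖ = 1) {R : ℝ} (hR : 1 < R) {r : ℝ} :
    Ell p r (1 - 1 / R) ⊆ ball (((1 - R : ℝ) : ℂ) • p) R := by
  rintro z ⟨-, h2⟩
  obtain ⟨w, hw⟩ : ∃ w : ℂ, w = inner ℂ p z := ⟨_, rfl⟩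
  obtain ⟨y, hy⟩ : ∃ y : V m, y = z - w • p := ⟨_, rfl⟩
  have hpy : (inner ℂ p y : ℂ) = 0 := by rw [hy, hw]; exact decomp hp z
  have hz : z = w • p + (1 : ℂ) • y := by rw [hy, one_smul]; abel
  rw [← hw, ← hy] at h2
  have h3 : ‖z‖ ^ 2 = ‖w‖ ^ 2 + ‖y‖ ^ 2 := by
    rw [hz, pyth hp hpy, norm_one]; ring
  rw [mem_ball, dist_eq_norm]
  have h4 : z - ((1 - R : ℝ) : ℂ) • p = (w - (1 - R : ℝ)) • p + (1 : ℂ) • y := by
    rw [hz, sub_smul, one_smul]; abel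
  have h5 : ‖z - ((1 - R : ℝ) : ℂ) • p‖ ^ 2 = ‖w - (1 - R : ℝ)‖ ^ 2 + ‖y‖ ^ 2 := by
    rw [h4, pyth hp hpy, norm_one]; ring
  have h6 : ‖w - (1 - R : ℝ)‖ ≤ ‖w‖ + (R - 1) := by
    refine (norm_sub_le _ _).trans ?_
    rw [Complex.norm_real, Real.norm_of_nonpos (by linarith)]
    linarith
  have hR0 : 0 < R := by linarith
  rw [h3] at h2
  -- `‖y‖² / R < 1 - ‖w‖²`
  have h7 : ‖y‖ ^ 2 / R < 1 - ‖w‖ ^ 2 := by
    have : (1 - 1 / R) * ‖y‖ ^ 2 = ‖y‖ ^ 2 - ‖y‖ ^ 2 / R := by ring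
    rw [this] at h2
    linarith
  have h8 : ‖y‖ ^ 2 < (1 - ‖w‖ ^ 2) * R := by rwa [div_lt_iff₀ hR0] at h7
  have hw0 := norm_nonneg w
  have hw1 : ‖w‖ < 1 := by
    have : 0 ≤ ‖y‖ ^ 2 / R := by positivity
    nlinarith
  have h9 : ‖w - (1 - R : ℝ)‖ ^ 2 ≤ (‖w‖ + (R - 1)) ^ 2 :=
    pow_le_pow_left₀ (norm_nonneg _) h6 2
  have h10 : ‖z - ((1 - R : ℝ) : ℂ) • p‖ ^ 2 < R ^ 2 := by
    rw [h5]
    have h11 : (1 - ‖w‖) * ((R - 1) * (1 - ‖w‖)) ≥ 0 := by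
      have : 0 ≤ 1 - ‖w‖ := by linarith
      have : 0 ≤ R - 1 := by linarith
      positivity
    nlinarith
  exact lt_of_pow_lt_pow_left₀ 2 hR0.le h10

end Pool.Agent.X27.Cor
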